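import Mathlib

/-!
# The Nagao calculus

A group with elements `a, x, w` such that `x² = w² = 1`, `wxw = xwx`, `waw = a⁻¹` and `x` commutes
with all `a^j x a^{-j}`.
-/

set_option autoImplicit false

namespace Pool.Agent.Helper622.Sidki

open Polynomial

/-- elements `a, x, w` of a group with the relations of the extended group -/
structure Data (G : Type*) [Group G] where
  a : G
  x : G
  w : G
  hx : x * x = 1
  hw : w * w = 1
  hb : w * x * w = x * w * x
  ha : w * a * w = a⁻¹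
  hc : ∀ j : ℕ, Commute x (a ^ j * x * (a ^ j)⁻¹)

namespace Data

variable {G : Type*} [Group G] (D : Data G)

/-- `X(t^j)` -/
def xs (j : ℕ) : G := D.a ^ j * D.x * (D.a ^ j)⁻¹

lemma xs_sq (j : ℕ) : D.xs j * D.xs j = 1 := by
  unfold xs
  have : D.a ^ j * D.x * (D.a ^ j)⁻¹ * (D.a ^ j * D.x * (D.a ^ j)⁻¹)
      = D.a ^ j * (D.x * D.x) * (D.a ^ j)⁻¹ := by group
  rw [this, D.hx]; group

lemma xs_add (i j : ℕ) : D.xs (i + j) = D.a ^ i * D.xs j * (D.a ^ i)⁻¹ := by
  unfold xs; rw [pow_add]; group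

lemma xs_comm_aux (i j : ℕ) : Commute (D.xs i) (D.xs (i + j)) := by
  have h := D.hc j
  have h2 : Commute (D.a ^ i * D.x * (D.a ^ i)⁻¹) (D.a ^ i * (D.xs j) * (D.a ^ i)⁻¹) := by
    have := h.map (MulAut.conj (D.a ^ i)).toMonoidHom
    exact this
  rw [← D.xs_add] at h2
  exact h2

lemma xs_comm (i j : ℕ) : Commute (D.xs i) (D.xs j) := by
  rcases le_total i j with h | h
  · obtain ⟨k, rfl⟩ := Nat.exists_eq_add_of_le h
    exact D.xs_comm_aux i k
  · obtain ⟨k, rfl⟩ := Nat.exists_eq_add_of_le h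
    exact (D.xs_comm_aux j k).symm

/-- the group generated by the `X(t^j)` -/
def W : Subgroup G := Subgroup.closure (Set.range D.xs)

lemma W_comm {u v : G} (hu : u ∈ D.W) (hv : v ∈ D.W) : u * v = v * u := by
  have h := Subgroup.isMulCommutative_closure (k := Set.range D.xs) (by
        rintro _ ⟨i, rfl⟩ _ ⟨j, rfl⟩
        exact D.xs_comm i j)
  have := h.is_comm.comm (⟨u, hu⟩ : Subgroup.closure (Set.range D.xs)) ⟨v, hv⟩
  exact congrArg Subtype.val this

instance : CommGroup D.W :=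
  { (inferInstance : Group D.W) with
    mul_comm := by
      intro u v
      apply Subtype.ext
      exact D.W_comm u.2 v.2 }

lemma W_sq' {u : G} (hu : u ∈ D.W) : u * u = 1 := by
  refine Subgroup.closure_induction (p := fun v _ => v * v = 1) ?_ ?_ ?_ ?_ hu
  · rintro _ ⟨i, rfl⟩
    exact D.xs_sq i
  · simp
  · intro u v hu hv iu iv
    have := D.W_comm (u := u) (v := v) hu hv
    calc u * v * (u * v) = u * (v * u) * v := by group
      _ = u * (u * v) * v := by rw [this]
      _ = (u * u) * (v * v) := by group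
      _ = 1 := by rw [iu, iv, one_mul]
  · intro u _ iu
    rw [← mul_inv_rev, iu, inv_one]

lemma W_sq (u : D.W) : u * u = 1 := by
  apply Subtype.ext
  exact D.W_sq' u.2

noncomputable instance : Module (ZMod 2) (Additive D.W) :=
  AddCommGroup.zmodModule (n := 2) (by
    intro u
    rw [two_nsmul]
    exact D.W_sq u.toMul)

/-- conjugation by `a` on `W` -/
def conjW : D.W →* D.W where
  toFun u := ⟨D.a * u * D.a⁻¹, by
    obtain ⟨u, hu⟩ := u
    refine Subgroup.closure_induction (p := fun v _ => D.a * v * D.a⁻¹ ∈ D.W) ?_ ?_ ?_ ?_ hu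
    · rintro _ ⟨i, rfl⟩
      apply Subgroup.subset_closure
      refine ⟨1 + i, ?_⟩
      rw [D.xs_add, pow_one]
    · simpa using D.W.one_mem
    · intro u v _ _ iu iv
      have : D.a * (u * v) * D.a⁻¹ = (D.a * u * D.a⁻¹) * (D.a * v * D.a⁻¹) := by group
      rw [this]; exact D.W.mul_mem iu iv
    · intro u _ iu
      have : D.a * u⁻¹ * D.a⁻¹ = (D.a * u * D.a⁻¹)⁻¹ := by group
      rw [this]; exact D.W.inv_mem iu⟩
  map_one' := by apply Subtype.ext; simp
  map_mul' u v := by apply Subtype.ext; simp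

/-- conjugation by `a` as a linear map -/
noncomputable def conjL : Module.End (ZMod 2) (Additive D.W) :=
  AddMonoidHom.toZModLinearMap 2 (MonoidHom.toAdditive D.conjW)

/-- the base element -/
def x0 : D.W := ⟨D.x, Subgroup.subset_closure ⟨0, by simp [xs]⟩⟩

/-- `X(f)` -/
noncomputable def X (f : (ZMod 2)[X]) : G :=
  ((Additive.toMul ((aeval D.conjL f) (Additive.ofMul D.x0)) : D.W) : G)

lemma X_add (f g : (ZMod 2)[X]) : D.X (f + g) = D.X f * D.X g := by
  unfold X
  rw [map_add, LinearMap.add_apply, toMul_add]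
  rfl

@[simp] lemma X_zero : D.X 0 = 1 := by
  unfold X
  rw [map_zero, LinearMap.zero_apply]
  rfl

@[simp] lemma X_one : D.X 1 = D.x := by
  unfold X
  rw [map_one]
  rfl

lemma X_t (f : (ZMod 2)[X]) : D.X (Polynomial.X * f) = D.a * D.X f * D.a⁻¹ := by
  unfold X
  rw [map_mul, aeval_X]
  rfl

lemma X_tpow (j : ℕ) (f : (ZMod 2)[X]) : D.X (Polynomial.X ^ j * f) = D.a ^ j * D.X f * (D.a ^ j)⁻¹ := by
  induction j with
  | zero => simp
  | succ j ih =>
    rw [pow_succ', mul_assoc, D.X_t, ih, pow_succ']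
    group

lemma X_comm (f g : (ZMod 2)[X]) : D.X f * D.X g = D.X g * D.X f := by
  rw [← D.X_add, add_comm, D.X_add]

lemma X_sq (f : (ZMod 2)[X]) : D.X f * D.X f = 1 := by
  rw [← D.X_add, CharTwo.add_self_eq_zero, D.X_zero]

lemma X_inv (f : (ZMod 2)[X]) : (D.X f)⁻¹ = D.X f := by
  rw [inv_eq_iff_mul_eq_one, D.X_sq]

lemma w_inv : D.w⁻¹ = D.w := by
  rw [inv_eq_iff_mul_eq_one, D.hw]

/-- `Y(f)` -/
noncomputable def Y (f : (ZMod 2)[X]) : G := D.w * D.X f * D.w

end Data

end Pool.Agent.Helper622.Sidki
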