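import Mathlib
import Pool.Agent.Helper622.Sidki.Data

set_option autoImplicit false

namespace Pool.Agent.Helper622.Sidki

open Polynomial

abbrev P2 := (ZMod 2)[X]

lemma dm {p q h r : P2} (hq : q ≠ 0) (e : p = h * q + r) (hd : r.degree < q.degree) :
    p / q = h ∧ p % q = r := by
  have e1 := EuclideanDomain.div_add_mod p q
  have e2 : q * (h - p / q) = p % q - r := by
    rw [mul_sub]
    have : q * (p / q) = p - p % q := by rw [eq_sub_iff_add_eq]; exact e1
    rw [this, e]; ring
  have h3 : h - p / q = 0 := by
    by_contra hne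
    have d1 : (q * (h - p / q)).degree = q.degree + (h - p / q).degree := degree_mul
    have d2 : (p % q - r).degree < q.degree :=
      lt_of_le_of_lt (degree_sub_le _ _) (max_lt (degree_mod_lt p hq) hd)
    rw [← e2, d1] at d2
    have : (0 : WithBot ℕ) ≤ (h - p / q).degree := zero_le_degree_iff.mpr hne
    have : q.degree ≤ q.degree + (h - p / q).degree := le_add_of_nonneg_right this
    exact absurd d2 (not_lt.mpr this)
  refine ⟨(sub_eq_zero.mp h3).symm, ?_⟩
  rw [h3, mul_zero] at e2
  exact (sub_eq_zero.mp e2.symm)

lemma p2_unit {p s : P2} (h : p * s = 1) : p = 1 ∧ s = 1 := by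
  have key : ∀ p s : P2, p * s = 1 → p = 1 := by
    intro p s h
    have : IsUnit p := IsUnit.of_mul_eq_one _ h
    obtain ⟨r, hr, hr2⟩ := isUnit_iff.mp this
    have : r = 1 := by
      have h0 : r ≠ 0 := hr.ne_zero
      revert h0
      clear hr2 hr
      revert r
      decide
    rw [← hr2, this, map_one]
  exact ⟨key p s h, key s p (by rw [mul_comm]; exact h)⟩

lemma add_add_self (p q : P2) : p + q + q = p := by
  rw [add_assoc, CharTwo.add_self_eq_zero, add_zero]

lemma lead_one {p : P2} (h : p ≠ 0) : p.leadingCoeff = 1 := by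
  have h0 : p.leadingCoeff ≠ 0 := leadingCoeff_ne_zero.mpr h
  revert h0
  generalize p.leadingCoeff = r
  revert r
  decide

lemma div_same {p q : P2} (hp : p ≠ 0) (hq : q ≠ 0) (hd : p.degree = q.degree) :
    p / q = 1 ∧ p % q = p + q := by
  apply dm hq
  · rw [one_mul, add_comm p q, ← add_assoc, CharTwo.add_self_eq_zero, zero_add]
  · have : p + q = p - q := by rw [CharTwo.sub_eq_add]
    rw [this, ← hd]
    exact degree_sub_lt_left hd hp (by rw [lead_one hp, lead_one hq])

namespace Data

variable {G : Type*} [Group G] (D : Data G)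

open Classical in
/-- the Nagao word of a matrix `[[p, r], [q, s]]` of determinant one. -/
noncomputable def th (p q r s : P2) : G :=
  if _h : q = 0 then D.X r
  else D.X (p / q) * D.w * th q (p % q) s (r + (p / q) * s)
termination_by q.degree
decreasing_by exact degree_mod_lt p _h

lemma th_zero (p r s : P2) : D.th p 0 r s = D.X r := by
  rw [th]; simp

lemma th_ne {q : P2} (h : q ≠ 0) (p r s : P2) :
    D.th p q r s = D.X (p / q) * D.w * D.th q (p % q) s (r + (p / q) * s) := by
  rw [th]; simp [h]

lemma th_X (f p q r s : P2) (hdet : p * s + q * r = 1) :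
    D.th (p + f * q) q (r + f * s) s = D.X f * D.th p q r s := by
  by_cases h : q = 0
  · subst h
    rw [zero_mul, add_zero] at hdet
    obtain ⟨rfl, rfl⟩ := p2_unit hdet
    rw [th_zero, th_zero, mul_one, D.X_add, D.X_comm]
  · rw [D.th_ne h, D.th_ne h]
    have e : p + f * q = (p / q + f) * q + p % q := by
      conv_lhs => rw [← EuclideanDomain.div_add_mod p q]
      ring
    obtain ⟨e1, e2⟩ := dm h e (degree_mod_lt p h)
    rw [e1, e2, D.X_add, D.X_comm (p / q) f]
    have e3 : r + f * s + (p / q + f) * s = r + p / q * s := by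
      have : r + f * s + (p / q + f) * s = (r + p / q * s) + (f * s + f * s) := by ring
      rw [this, CharTwo.add_self_eq_zero, add_zero]
    rw [e3]
    group

lemma th_w (p q r s : P2) (hdet : p * s + q * r = 1) :
    D.th q p s r = D.w * D.th p q r s := by
  have key : ∀ p q r s : P2, p * s + q * r = 1 → p ≠ 0 → p.degree < q.degree →
      D.th q p s r = D.w * D.th p q r s := by
    intro p q r s hdet hp hlt
    have hq : q ≠ 0 := by
      rintro rfl
      simp at hlt
    have e : p = 0 * q + p := by ring
    obtain ⟨e1, e2⟩ := dm hq e hlt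
    rw [D.th_ne hq p, e1, e2, D.X_zero, zero_mul, add_zero, one_mul, ← mul_assoc, D.hw, one_mul]
  have key0 : ∀ p r s : P2, p * s + 0 * r = 1 → D.th 0 p s r = D.w * D.th p 0 r s := by
    intro p r s hdet
    rw [zero_mul, add_zero] at hdet
    obtain ⟨rfl, rfl⟩ := p2_unit hdet
    rw [th_zero, D.th_ne one_ne_zero]
    simp [th_zero]
  by_cases hq : q = 0
  · subst hq
    exact key0 p r s hdet
  by_cases hp : p = 0
  · subst hp
    have := key0 q s r (by rw [← hdet]; ring)
    rw [this, ← mul_assoc, D.hw, one_mul]
  rcases lt_trichotomy p.degree q.degree with h | h | h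
  · exact key p q r s hdet hp h
  · obtain ⟨e1, e2⟩ := div_same hp hq h
    obtain ⟨e3, e4⟩ := div_same hq hp h.symm
    rw [D.th_ne hq p, D.th_ne hp q, e1, e2, e3, e4, D.X_one, one_mul, one_mul]
    have e5 : D.th p (q + p) r (s + r) = D.x * D.th q (p + q) s (r + s) := by
      have := D.th_X 1 q (p + q) s (r + s) (by
        have : q * (r + s) + (p + q) * s = (p * s + q * r) + (q * s + q * s) := by ring
        rw [this, CharTwo.add_self_eq_zero, add_zero, hdet])
      rw [D.X_one] at this
      rw [← this, one_mul, one_mul]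
      congr 1
      · rw [add_comm p q, ← add_assoc, CharTwo.add_self_eq_zero, zero_add]
      · rw [add_comm p q]
      · rw [add_comm r s, ← add_assoc, CharTwo.add_self_eq_zero, zero_add]
      · rw [add_comm]
    rw [e5]
    calc D.x * D.w * (D.x * D.th q (p + q) s (r + s))
        = (D.x * D.w * D.x) * D.th q (p + q) s (r + s) := by group
      _ = (D.w * D.x * D.w) * D.th q (p + q) s (r + s) := by rw [D.hb]
      _ = _ := by group
  · have := key q p s r (by rw [← hdet]; ring) hq h
    rw [this, ← mul_assoc, D.hw, one_mul]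

lemma th_one : D.th 1 0 0 1 = 1 := by rw [th_zero, D.X_zero]

lemma th_Y (f p q r s : P2) (hdet : p * s + q * r = 1) :
    D.th p (q + f * p) r (s + f * r) = D.Y f * D.th p q r s := by
  have h1 := D.th_w p q r s hdet
  have h2 := D.th_X f q p s r (by rw [← hdet]; ring)
  have h3 := D.th_w (q + f * p) p (s + f * r) r (by
    have : (q + f * p) * r + p * (s + f * r) = (p * s + q * r) + (f * p * r + f * p * r) := by ring
    rw [this, CharTwo.add_self_eq_zero, add_zero, hdet])
  rw [h3, h2, h1]
  unfold Y
  group

/-- right multiplication by `w` -/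
lemma th_mul_w (p q r s : P2) (hdet : p * s + q * r = 1) :
    D.th r s p q = D.th p q r s * D.w := by
  by_cases h : q = 0
  · subst h
    rw [zero_mul, add_zero] at hdet
    obtain ⟨rfl, rfl⟩ := p2_unit hdet
    rw [th_zero]
    have := D.th_X r 0 1 1 0 (by simp)
    simp only [mul_one, mul_zero, add_zero, zero_add] at this
    rw [this]
    have := D.th_w 1 0 0 1 (by simp)
    rw [this, D.th_one, mul_one]
  · have ih := th_mul_w q (p % q) s (r + (p / q) * s) (by
      have e1 := EuclideanDomain.div_add_mod p q
      have : q * (r + p / q * s) + p % q * s = (q * (p / q) + p % q) * s + q * r := by ring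
      rw [this, e1, hdet])
    rw [D.th_ne h, mul_assoc, ← ih]
    -- now the matrix [[r, p], [s, q]] = X(p/q) w [[s, q], [r + (p/q) s, p % q]]
    have e1 := EuclideanDomain.div_add_mod p q
    have hm : p % q = p + (p / q) * q := by
      have h1 : p + p / q * q = (q * (p / q) + p % q) + p / q * q := by rw [e1]
      have h2 : q * (p / q) + p % q + p / q * q = p % q + (q * (p / q) + q * (p / q)) := by ring
      rw [h1, h2, CharTwo.add_self_eq_zero, add_zero]
    have hd1 : (r + (p / q) * s) * q + s * (p % q) = 1 := by
      rw [hm]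
      have : (r + p / q * s) * q + s * (p + p / q * q) = (p * s + q * r) + (p / q * q * s + p / q * q * s) := by ring
      rw [this, CharTwo.add_self_eq_zero, add_zero, hdet]
    have a1 := D.th_w (r + (p / q) * s) s (p % q) q hd1
    have a2 := D.th_X (p / q) (r + (p / q) * s) s (p % q) q hd1
    have a3 : r + p / q * s + p / q * s = r := add_add_self _ _
    have a4 : p % q + p / q * q = p := by rw [mul_comm, add_comm]; exact e1
    rw [a3, a4] at a2
    rw [a2, a1]
    have : D.X (p / q) * D.w * (D.w * D.th (r + p / q * s) s (p % q) q)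
      = D.X (p / q) * (D.w * D.w) * D.th (r + p / q * s) s (p % q) q := by group
    rw [this, D.hw, mul_one]
termination_by q.degree
decreasing_by exact degree_mod_lt p h

end Data

end Pool.Agent.Helper622.Sidki
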