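import Mathlib
import Pool.Agent.Helper622.Sidki.Theta

set_option autoImplicit false

namespace Pool.Agent.Helper622.Sidki

open Polynomial

namespace Data

variable {G : Type*} [Group G] (D : Data G)

lemma awa : D.a * D.w * D.a = D.w := by
  have h := D.ha
  calc D.a * D.w * D.a = (D.w * D.w) * D.a * D.w * D.a := by rw [D.hw, one_mul]
    _ = D.w * (D.w * D.a * D.w) * D.a := by group
    _ = D.w := by rw [h]; group

/-- the element `π = w a` -/
def pi : G := D.w * D.a

lemma pi_sq : D.pi * D.pi = 1 := by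
  unfold pi
  have : D.w * D.a * (D.w * D.a) = (D.w * D.a * D.w) * D.a := by group
  rw [this, D.ha]; group

lemma pi_X (f : P2) : D.pi * D.X f * D.pi = D.Y ((Polynomial.X : P2) * f) := by
  unfold pi Y
  rw [D.X_t]
  have h := D.awa
  calc D.w * D.a * D.X f * (D.w * D.a) = D.w * D.a * D.X f * D.a⁻¹ * (D.a * D.w * D.a) := by group
    _ = _ := by rw [h]; group

lemma pi_Y (f : P2) : D.pi * D.Y ((Polynomial.X : P2) * f) * D.pi = D.X f := by
  rw [← D.pi_X]
  have h := D.pi_sq
  calc D.pi * (D.pi * D.X f * D.pi) * D.pi = (D.pi * D.pi) * D.X f * (D.pi * D.pi) := by group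
    _ = _ := by rw [h]; group

lemma pi_step_X (f p q r s : P2) (hdet : p * s + ((Polynomial.X : P2) * q) * r = 1)
    (h : D.pi * D.th p ((Polynomial.X : P2) * q) r s * D.pi = D.th s ((Polynomial.X : P2) * r) q p) :
    D.pi * D.th (p + f * ((Polynomial.X : P2) * q)) ((Polynomial.X : P2) * q) (r + f * s) s * D.pi
      = D.th s ((Polynomial.X : P2) * (r + f * s)) q (p + f * ((Polynomial.X : P2) * q)) := by
  rw [D.th_X f p ((Polynomial.X : P2) * q) r s hdet]
  have h1 := D.th_Y ((Polynomial.X : P2) * f) s ((Polynomial.X : P2) * r) q p (by rw [← hdet]; ring)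
  have e1 : (Polynomial.X : P2) * (r + f * s) = (Polynomial.X : P2) * r + (Polynomial.X : P2) * f * s := by ring
  have e2 : p + f * ((Polynomial.X : P2) * q) = p + (Polynomial.X : P2) * f * q := by ring
  rw [e1, e2, h1, ← D.pi_X, ← h]
  have h := D.pi_sq
  calc D.pi * (D.X f * D.th p ((Polynomial.X : P2) * q) r s) * D.pi
      = D.pi * D.X f * 1 * D.th p ((Polynomial.X : P2) * q) r s * D.pi := by group
    _ = _ := by rw [← h]; group

lemma pi_step_Y (f p q r s : P2) (hdet : p * s + ((Polynomial.X : P2) * q) * r = 1)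
    (h : D.pi * D.th p ((Polynomial.X : P2) * q) r s * D.pi = D.th s ((Polynomial.X : P2) * r) q p) :
    D.pi * D.th p ((Polynomial.X : P2) * (q + f * p)) r (s + (Polynomial.X : P2) * f * r) * D.pi
      = D.th (s + (Polynomial.X : P2) * f * r) ((Polynomial.X : P2) * r) (q + f * p) p := by
  have h1 := D.th_Y ((Polynomial.X : P2) * f) p ((Polynomial.X : P2) * q) r s hdet
  have h2 := D.th_X f s ((Polynomial.X : P2) * r) q p (by rw [← hdet]; ring)
  have e1 : (Polynomial.X : P2) * (q + f * p) = (Polynomial.X : P2) * q + (Polynomial.X : P2) * f * p := by ring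
  have e2 : s + (Polynomial.X : P2) * f * r = s + f * ((Polynomial.X : P2) * r) := by ring
  rw [e1, h1, e2, h2, ← D.pi_Y f, ← h]
  have h := D.pi_sq
  calc D.pi * (D.Y ((Polynomial.X : P2) * f) * D.th p ((Polynomial.X : P2) * q) r s) * D.pi
      = D.pi * D.Y ((Polynomial.X : P2) * f) * 1 * D.th p ((Polynomial.X : P2) * q) r s * D.pi := by group
    _ = _ := by rw [← h]; group

lemma th_pi (p q r s : P2) (hdet : p * s + ((Polynomial.X : P2) * q) * r = 1) :
    D.pi * D.th p ((Polynomial.X : P2) * q) r s * D.pi = D.th s ((Polynomial.X : P2) * r) q p := by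
  by_cases hq : q = 0
  · subst hq
    rw [mul_zero, zero_mul, add_zero] at hdet
    obtain ⟨rfl, rfl⟩ := p2_unit hdet
    rw [mul_zero, th_zero, D.pi_X]
    have := D.th_Y ((Polynomial.X : P2) * r) 1 0 0 1 (by simp)
    rw [D.th_one, mul_one, mul_one, zero_add, mul_zero, add_zero] at this
    rw [this]
  · have htq : (Polynomial.X : P2) * q ≠ 0 := mul_ne_zero X_ne_zero hq
    set f1 := p / ((Polynomial.X : P2) * q) with hf1
    set p1 := p % ((Polynomial.X : P2) * q) with hp1
    have e1 : (Polynomial.X : P2) * q * f1 + p1 = p := EuclideanDomain.div_add_mod p ((Polynomial.X : P2) * q)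
    have hp : p = p1 + f1 * ((Polynomial.X : P2) * q) := by rw [← e1]; ring
    set r1 := r + f1 * s with hr1
    have hr : r = r1 + f1 * s := by rw [hr1, add_add_self]
    have hdet1 : p1 * s + ((Polynomial.X : P2) * q) * r1 = 1 := by
      have : p1 = p + f1 * ((Polynomial.X : P2) * q) := by rw [hp, add_add_self]
      rw [this, hr1]
      have : (p + f1 * ((Polynomial.X : P2) * q)) * s + (Polynomial.X : P2) * q * (r + f1 * s)
        = (p * s + (Polynomial.X : P2) * q * r) + (f1 * ((Polynomial.X : P2) * q) * s + f1 * ((Polynomial.X : P2) * q) * s) := by ring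
      rw [this, CharTwo.add_self_eq_zero, add_zero, hdet]
    have hp1ne : p1 ≠ 0 := by
      intro h0
      rw [h0, zero_mul, zero_add] at hdet1
      have : IsUnit (Polynomial.X : P2) := IsUnit.of_mul_eq_one (q * r1) (by rw [← hdet1]; ring)
      exact not_isUnit_X this
    have hdlt : p1.degree < ((Polynomial.X : P2) * q).degree := degree_mod_lt p htq
    have hdle : p1.degree ≤ q.degree := by
      rw [degree_mul, degree_X, degree_eq_natDegree hp1ne, degree_eq_natDegree hq] at hdlt
      rw [degree_eq_natDegree hp1ne, degree_eq_natDegree hq]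
      norm_cast at hdlt ⊢
      omega
    set f2 := q / p1 with hf2
    set q2 := q % p1 with hq2
    have e2 : p1 * f2 + q2 = q := EuclideanDomain.div_add_mod q p1
    have hq' : q = q2 + f2 * p1 := by rw [← e2]; ring
    have hlt : q2.degree < q.degree := lt_of_lt_of_le (degree_mod_lt q hp1ne) hdle
    set s2 := s + (Polynomial.X : P2) * f2 * r1 with hs2
    have hs : s = s2 + (Polynomial.X : P2) * f2 * r1 := by rw [hs2, add_add_self]
    have hdet2 : p1 * s2 + ((Polynomial.X : P2) * q2) * r1 = 1 := by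
      have : q2 = q + f2 * p1 := by rw [hq', add_add_self]
      rw [this, hs2]
      have : p1 * (s + (Polynomial.X : P2) * f2 * r1) + (Polynomial.X : P2) * (q + f2 * p1) * r1
        = (p1 * s + (Polynomial.X : P2) * q * r1) + (p1 * ((Polynomial.X : P2) * f2 * r1) + p1 * ((Polynomial.X : P2) * f2 * r1)) := by ring
      rw [this, CharTwo.add_self_eq_zero, add_zero, hdet1]
    have ih := th_pi p1 q2 r1 s2 hdet2
    have i1 := D.pi_step_Y f2 p1 q2 r1 s2 hdet2 ih
    rw [← hq', ← hs] at i1
    have i2 := D.pi_step_X f1 p1 q r1 s hdet1 i1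
    rw [← hp, ← hr] at i2
    exact i2
termination_by q.degree
decreasing_by exact hlt

/-- the key identity -/
theorem key (j : ℕ) (f v : P2) (h : f * v = 1 + (Polynomial.X : P2) ^ j) :
    D.X f * D.Y v = D.a ^ j * (D.Y v * D.X f) * D.a ^ j := by
  -- the matrices `M_i = [[t^(j-i), f], [v, t^i]]`
  have hstep : ∀ i k : ℕ, i + k + 1 = j →
      D.a⁻¹ * D.th ((Polynomial.X : P2) ^ (k + 1)) v f ((Polynomial.X : P2) ^ i) * D.a⁻¹ = D.th ((Polynomial.X : P2) ^ k) v f ((Polynomial.X : P2) ^ (i + 1)) := by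
    intro i k hik
    have hdet : (Polynomial.X : P2) ^ (k + 1) * (Polynomial.X : P2) ^ i + v * f = 1 := by
      rw [← pow_add, mul_comm v f, h]
      have : k + 1 + i = j := by omega
      rw [this, add_comm, add_add_self]
    have h1 := D.th_w ((Polynomial.X : P2) ^ (k + 1)) v f ((Polynomial.X : P2) ^ i) hdet
    have h2 := D.th_pi v ((Polynomial.X : P2) ^ k) ((Polynomial.X : P2) ^ i) f (by rw [← hdet]; ring)
    have h3 := D.th_mul_w ((Polynomial.X : P2) ^ k) v f ((Polynomial.X : P2) ^ (i + 1)) (by rw [← hdet]; ring)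
    rw [pow_succ' (Polynomial.X : P2) k] at h1 ⊢
    rw [h1] at h2
    rw [pow_succ' (Polynomial.X : P2) i] at h3 ⊢
    rw [h3] at h2
    have h4 : D.th ((Polynomial.X : P2) ^ k) v f ((Polynomial.X : P2) * (Polynomial.X : P2) ^ i) = D.pi * (D.w * D.th ((Polynomial.X : P2) * (Polynomial.X : P2) ^ k) v f ((Polynomial.X : P2) ^ i)) * D.pi * D.w := by
      rw [h2, mul_assoc, D.hw, mul_one]
    rw [h4]
    have h5 : D.pi * D.w = D.a⁻¹ := D.ha
    have h6 : D.pi * (D.w * D.th ((Polynomial.X : P2) * (Polynomial.X : P2) ^ k) v f ((Polynomial.X : P2) ^ i)) * D.pi * D.w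
      = (D.pi * D.w) * D.th ((Polynomial.X : P2) * (Polynomial.X : P2) ^ k) v f ((Polynomial.X : P2) ^ i) * (D.pi * D.w) := by group
    rw [h6, h5]
  have hall : ∀ i : ℕ, i ≤ j →
      (D.a⁻¹) ^ i * D.th ((Polynomial.X : P2) ^ j) v f 1 * (D.a⁻¹) ^ i = D.th ((Polynomial.X : P2) ^ (j - i)) v f ((Polynomial.X : P2) ^ i) := by
    intro i
    induction i with
    | zero => intro _; simp
    | succ i ih =>
      intro hi
      have h1 := ih (by omega)
      have h2 := hstep i (j - i - 1) (by omega)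
      have e : j - i - 1 + 1 = j - i := by omega
      rw [e, ← h1] at h2
      have e2 : j - (i + 1) = j - i - 1 := by omega
      rw [e2, ← h2, pow_succ]
      have : (D.a⁻¹) ^ i * D.a⁻¹ = D.a⁻¹ * (D.a⁻¹) ^ i := by rw [← pow_succ, pow_succ']
      rw [this]
      have h3 : ∀ T : G, D.a⁻¹ * (D.a⁻¹) ^ i * T * (D.a⁻¹ * (D.a⁻¹) ^ i) = D.a⁻¹ * ((D.a⁻¹) ^ i * T * (D.a⁻¹) ^ i) * D.a⁻¹ := by
        intro T
        have : D.a⁻¹ * (D.a⁻¹) ^ i = (D.a⁻¹) ^ i * D.a⁻¹ := by rw [← pow_succ, pow_succ']
        conv_lhs => rw [mul_assoc, this]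
        rw [← this]
        group
      exact h3 _
  have hfin := hall j le_rfl
  rw [Nat.sub_self, pow_zero] at hfin
  -- evaluate the two ends
  have hdetJ : (Polynomial.X : P2) ^ j * 1 + v * f = 1 := by
    rw [mul_one, mul_comm v f, h, ← add_assoc, add_comm ((Polynomial.X : P2) ^ j) 1, add_assoc, CharTwo.add_self_eq_zero, add_zero]
  have hL : D.th ((Polynomial.X : P2) ^ j) v f 1 = D.X f * D.Y v := by
    have a1 := D.th_Y v 1 0 0 1 (by simp)
    rw [D.th_one, mul_one, mul_one, zero_add, mul_zero, add_zero] at a1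
    have a2 := D.th_X f 1 v 0 1 (by simp)
    rw [a1, mul_one, zero_add] at a2
    have : (Polynomial.X : P2) ^ j = 1 + f * v := by rw [h, ← add_assoc, CharTwo.add_self_eq_zero, zero_add]
    rw [this, a2]
  have hR : D.th 1 v f ((Polynomial.X : P2) ^ j) = D.Y v * D.X f := by
    have a1 := D.th_X f 1 0 0 1 (by simp)
    rw [D.th_one, mul_one, mul_one, zero_add, mul_zero, add_zero] at a1
    have a2 := D.th_Y v 1 0 f 1 (by simp)
    rw [a1, mul_one, zero_add] at a2
    have : (Polynomial.X : P2) ^ j = 1 + v * f := by rw [mul_comm v f, h, ← add_assoc, CharTwo.add_self_eq_zero, zero_add]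
    rw [this, a2]
  rw [hL, hR] at hfin
  rw [← hfin]
  group

end Data

end Pool.Agent.Helper622.Sidki
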