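import Mathlib
import Pool.Agent.Helper622.Sidki.Pi

set_option autoImplicit false

namespace Pool.Agent.Helper622.Sidki

open Polynomial

/-- a squarefree polynomial with non-zero constant term divides `1 + t^j` for some odd `j`. -/
lemma exists_odd (v : P2) (hv : Squarefree v) (h0 : IsCoprime (Polynomial.X : P2) v) :
    ∃ j : ℕ, Odd j ∧ v ∣ 1 + (Polynomial.X : P2) ^ j := by
  have hne : v ≠ 0 := hv.ne_zero
  have : Module.Finite (ZMod 2) (AdjoinRoot v) := (AdjoinRoot.powerBasis hne).finite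
  have : Finite (AdjoinRoot v) := Module.finite_of_finite (ZMod 2)
  have hu : IsUnit (AdjoinRoot.mk v (Polynomial.X : P2)) := by
    obtain ⟨a, b, hab⟩ := h0
    refine IsUnit.of_mul_eq_one (AdjoinRoot.mk v a) ?_
    rw [← map_mul, mul_comm (Polynomial.X : P2) a]
    have : AdjoinRoot.mk v (a * (Polynomial.X : P2)) = AdjoinRoot.mk v 1 := by
      rw [AdjoinRoot.mk_eq_mk]
      refine ⟨-b, ?_⟩
      rw [← hab]; ring
    rw [this, map_one]
  obtain ⟨u, hu⟩ := hu
  have hfin : IsOfFinOrder u := isOfFinOrder_of_finite u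
  obtain ⟨m, hm, hm1⟩ := hfin.exists_pow_eq_one
  obtain ⟨e, j, hj, rfl⟩ := Nat.exists_eq_two_pow_mul_odd hm.ne'
  refine ⟨j, hj, ?_⟩
  have h1 : v ∣ (Polynomial.X : P2) ^ (2 ^ e * j) - 1 := by
    rw [← AdjoinRoot.mk_eq_mk, map_pow, ← hu, map_one]
    have := congrArg Units.val hm1
    simpa using this
  have h2 : (Polynomial.X : P2) ^ (2 ^ e * j) - 1 = (1 + (Polynomial.X : P2) ^ j) ^ (2 ^ e) := by
    rw [add_pow_char_pow, one_pow, ← pow_mul, CharTwo.sub_eq_add, add_comm, mul_comm]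
  rw [h2] at h1
  exact (hv.dvd_pow_iff_dvd (by positivity)).mp h1

lemma tau_dvd (m : ℕ) : ∃ h : P2, 1 + (Polynomial.X : P2) ^ m = (1 + (Polynomial.X : P2)) * h := by
  have : ((Polynomial.X : P2) - C 1) ∣ (1 + (Polynomial.X : P2) ^ m) := by
    rw [dvd_iff_isRoot]
    simp [IsRoot]
    decide
  obtain ⟨h, hh⟩ := this
  refine ⟨h, ?_⟩
  rw [hh, map_one, CharTwo.sub_eq_add, add_comm (Polynomial.X : P2) 1]

lemma tau_pow (k : ℕ) : (1 + (Polynomial.X : P2)) ^ (2 ^ k) = 1 + (Polynomial.X : P2) ^ (2 ^ k) := by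
  rw [add_pow_char_pow, one_pow]

namespace Data

variable {G : Type*} [Group G] (D : Data G)

lemma Y_add (f g : P2) : D.Y (f + g) = D.Y f * D.Y g := by
  unfold Y
  rw [D.X_add]
  calc D.w * (D.X f * D.X g) * D.w = D.w * D.X f * 1 * D.X g * D.w := by group
    _ = _ := by rw [← D.hw]; group

@[simp] lemma Y_zero : D.Y 0 = 1 := by
  unfold Y; rw [X_zero, mul_one, D.hw]

lemma Y_sq (f : P2) : D.Y f * D.Y f = 1 := by
  rw [← D.Y_add, CharTwo.add_self_eq_zero, D.Y_zero]

lemma Y_comm (f g : P2) : D.Y f * D.Y g = D.Y g * D.Y f := by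
  rw [← D.Y_add, add_comm, D.Y_add]

lemma wapow (l : ℕ) : D.w * D.a ^ l * D.w = (D.a ^ l)⁻¹ := by
  induction l with
  | zero => simp [D.hw]
  | succ l ih =>
    rw [pow_succ]
    calc D.w * (D.a ^ l * D.a) * D.w = D.w * D.a ^ l * 1 * D.a * D.w := by group
      _ = (D.w * D.a ^ l * D.w) * (D.w * D.a * D.w) := by rw [← D.hw]; group
      _ = _ := by rw [ih, D.ha]; rw [← mul_inv_rev, ← pow_succ', pow_succ]

lemma Y_tpow (l : ℕ) (f : P2) : D.Y ((Polynomial.X : P2) ^ l * f) = (D.a ^ l)⁻¹ * D.Y f * D.a ^ l := by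
  unfold Y
  rw [D.X_tpow]
  have h := D.wapow l
  have h2 : D.w * (D.a ^ l)⁻¹ * D.w = D.a ^ l := by
    rw [← h]
    calc D.w * (D.w * D.a ^ l * D.w) * D.w = (D.w * D.w) * D.a ^ l * (D.w * D.w) := by group
      _ = _ := by rw [D.hw]; group
  calc D.w * (D.a ^ l * D.X f * (D.a ^ l)⁻¹) * D.w
      = D.w * D.a ^ l * 1 * D.X f * 1 * (D.a ^ l)⁻¹ * D.w := by group
    _ = (D.w * D.a ^ l * D.w) * (D.w * D.X f * D.w) * (D.w * (D.a ^ l)⁻¹ * D.w) := by
        rw [← D.hw]; group
    _ = _ := by rw [h, h2]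

section
variable {N : ℕ} (hN : D.a ^ N = 1)
include hN

lemma X_mod (f : P2) : D.X ((1 + (Polynomial.X : P2) ^ N) * f) = 1 := by
  have : (1 + (Polynomial.X : P2) ^ N) * f = f + (Polynomial.X : P2) ^ N * f := by ring
  rw [this, D.X_add, D.X_tpow, hN]
  simp [D.X_sq]

lemma Y_mod (f : P2) : D.Y ((1 + (Polynomial.X : P2) ^ N) * f) = 1 := by
  unfold Y; rw [D.X_mod hN, mul_one, D.hw]

lemma comm_pair (f v : P2) (h : f * v = 1 + (Polynomial.X : P2) ^ N) : Commute (D.X f) (D.Y v) := by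
  have := D.key N f v h
  rw [hN] at this
  simpa [Commute, SemiconjBy] using this

end

/-- `X(τ^i R)` commutes with `Y(τ^j R)` when `i + j = 2^k`. -/
theorem commP (k : ℕ) (hN : D.a ^ (2 ^ k) = 1) (j : ℕ) :
    ∀ i : ℕ, i + j = 2 ^ k → ∀ r s : P2,
      Commute (D.X ((1 + (Polynomial.X : P2)) ^ i * r)) (D.Y ((1 + (Polynomial.X : P2)) ^ j * s)) := by
  induction j with
  | zero =>
    intro i hi r s
    rw [add_zero] at hi
    rw [hi, tau_pow, D.X_mod hN]
    exact Commute.one_left _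
  | succ j ih =>
    intro i hi r s
    have IH := ih (i + 1) (by omega)
    have hpair : Commute (D.X ((1 + (Polynomial.X : P2)) ^ i)) (D.Y ((1 + (Polynomial.X : P2)) ^ (j + 1))) :=
      D.comm_pair hN _ _ (by rw [← pow_add, hi, tau_pow])
    -- shift
    have h1 : ∀ l : ℕ, Commute (D.X ((1 + (Polynomial.X : P2)) ^ i)) (D.Y ((Polynomial.X : P2) ^ l * (1 + (Polynomial.X : P2)) ^ (j + 1))) := by
      intro l
      obtain ⟨h, hh⟩ := tau_dvd ((2 ^ k - 1) * l)
      set m := (2 ^ k - 1) * l with hm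
      have ham : D.a ^ m = (D.a ^ l)⁻¹ := by
        rw [eq_inv_iff_mul_eq_one, ← pow_add]
        have : m + l = 2 ^ k * l := by
          rw [hm]
          have : 1 ≤ 2 ^ k := Nat.one_le_two_pow
          obtain ⟨c, hc⟩ := Nat.exists_eq_add_of_le this
          rw [hc]
          simp
          ring
        rw [this, pow_mul, hN, one_pow]
      have c1 : Commute (D.X ((Polynomial.X : P2) ^ m * (1 + (Polynomial.X : P2)) ^ i)) (D.Y ((Polynomial.X : P2) ^ l * (1 + (Polynomial.X : P2)) ^ (j + 1))) := by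
        rw [D.X_tpow, D.Y_tpow, ham, inv_inv]
        have := hpair.map (MulAut.conj ((D.a ^ l)⁻¹)).toMonoidHom
        have e : ∀ y : G, (MulAut.conj ((D.a ^ l)⁻¹)).toMonoidHom y = (D.a ^ l)⁻¹ * y * D.a ^ l := by
          intro y
          show (D.a ^ l)⁻¹ * y * ((D.a ^ l)⁻¹)⁻¹ = _
          rw [inv_inv]
        rw [e, e] at this
        exact this
      have c2 : Commute (D.X ((1 + (Polynomial.X : P2)) ^ (i + 1) * h)) (D.Y ((Polynomial.X : P2) ^ l * (1 + (Polynomial.X : P2)) ^ (j + 1))) := by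
        have := IH h ((Polynomial.X : P2) ^ l * (1 + (Polynomial.X : P2)))
        have e : (1 + (Polynomial.X : P2)) ^ j * ((Polynomial.X : P2) ^ l * (1 + (Polynomial.X : P2))) = (Polynomial.X : P2) ^ l * (1 + (Polynomial.X : P2)) ^ (j + 1) := by ring
        rw [e] at this
        exact this
      have e : (1 + (Polynomial.X : P2)) ^ i = (Polynomial.X : P2) ^ m * (1 + (Polynomial.X : P2)) ^ i + (1 + (Polynomial.X : P2)) ^ (i + 1) * h := by
        have : (1 + (Polynomial.X : P2)) ^ (i + 1) * h = (1 + (Polynomial.X : P2)) ^ i * (1 + (Polynomial.X : P2) ^ m) := by rw [hh]; ring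
        rw [this]
        have : (Polynomial.X : P2) ^ m * (1 + (Polynomial.X : P2)) ^ i + (1 + (Polynomial.X : P2)) ^ i * (1 + (Polynomial.X : P2) ^ m)
          = (1 + (Polynomial.X : P2)) ^ i + ((Polynomial.X : P2) ^ m * (1 + (Polynomial.X : P2)) ^ i + (Polynomial.X : P2) ^ m * (1 + (Polynomial.X : P2)) ^ i) := by ring
        rw [this, CharTwo.add_self_eq_zero, add_zero]
      rw [e, D.X_add]
      exact c1.mul_left c2
    have h2 : ∀ s : P2, Commute (D.X ((1 + (Polynomial.X : P2)) ^ i)) (D.Y ((1 + (Polynomial.X : P2)) ^ (j + 1) * s)) := by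
      intro s
      induction s using Polynomial.induction_on' with
      | add p q hp hq =>
        rw [mul_add, D.Y_add]
        exact hp.mul_right hq
      | monomial n c =>
        have hc : c = 0 ∨ c = 1 := by revert c; decide
        rcases hc with rfl | rfl
        · simp
        · rw [monomial_one_right_eq_X_pow, mul_comm]
          exact h1 n
    have h3 : ∃ c : ZMod 2, ∃ r' : P2, r = C c + (1 + (Polynomial.X : P2)) * r' := by
      refine ⟨r.eval 1, r /ₘ ((Polynomial.X : P2) - C 1), ?_⟩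
      have := modByMonic_add_div r ((Polynomial.X : P2) - C 1)
      rw [modByMonic_X_sub_C_eq_C_eval] at this
      conv_lhs => rw [← this]
      rw [map_one, CharTwo.sub_eq_add, add_comm (Polynomial.X : P2) 1]
    obtain ⟨c, r', rfl⟩ := h3
    have e : (1 + (Polynomial.X : P2)) ^ i * (C c + (1 + (Polynomial.X : P2)) * r') = (1 + (Polynomial.X : P2)) ^ i * C c + (1 + (Polynomial.X : P2)) ^ (i + 1) * r' := by
      ring
    rw [e, D.X_add]
    refine Commute.mul_left ?_ ?_
    · have hc : c = 0 ∨ c = 1 := by clear e; revert c; decide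
      rcases hc with rfl | rfl
      · simp
      · rw [map_one, mul_one]; exact h2 s
    · have := IH r' ((1 + (Polynomial.X : P2)) * s)
      have e : (1 + (Polynomial.X : P2)) ^ j * ((1 + (Polynomial.X : P2)) * s) = (1 + (Polynomial.X : P2)) ^ (j + 1) * s := by ring
      rw [e] at this
      exact this

/-- `U(s) = x Y(s) x` -/
noncomputable def U (s : P2) : G := D.x * D.Y s * D.x

/-- `κ(s)` -/
noncomputable def kap (s : P2) : G := D.X s * D.U s * D.Y s

lemma x_inv : D.x⁻¹ = D.x := by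
  rw [inv_eq_iff_mul_eq_one, D.hx]

lemma xX (s : P2) : D.x * D.X s = D.X s * D.x := by
  have := D.X_comm 1 s
  rwa [D.X_one] at this

lemma U_add (f g : P2) : D.U (f + g) = D.U f * D.U g := by
  unfold U
  rw [D.Y_add]
  calc D.x * (D.Y f * D.Y g) * D.x = D.x * D.Y f * 1 * D.Y g * D.x := by group
    _ = _ := by rw [← D.hx]; group

lemma U_eq (s : P2) : D.U s = D.x * D.w * D.X s * D.w * D.x := by
  unfold U Y; group

/-- `w U(s) w = U(s)` -/
lemma wU (s : P2) : D.w * D.U s * D.w = D.U s := by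
  rw [U_eq]
  have hb := D.hb
  calc D.w * (D.x * D.w * D.X s * D.w * D.x) * D.w
      = (D.w * D.x * D.w) * D.X s * (D.w * D.x * D.w) := by group
    _ = (D.x * D.w * D.x) * D.X s * (D.x * D.w * D.x) := by rw [hb]
    _ = D.x * D.w * (D.x * D.X s) * D.x * D.w * D.x := by group
    _ = D.x * D.w * (D.X s * D.x) * D.x * D.w * D.x := by rw [D.xX]
    _ = D.x * D.w * D.X s * (D.x * D.x) * D.w * D.x := by group
    _ = _ := by rw [D.hx]; group

lemma kap_eq (s : P2) : D.X (1 + s) * D.Y (1 + s) * D.X (1 + s) * D.w = D.kap s := by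
  unfold kap
  rw [U_eq]
  unfold Y
  rw [D.X_add, D.X_one]
  have e1 : D.x * D.X s * (D.w * (D.x * D.X s) * D.w) * (D.x * D.X s) * D.w
     = (D.x * D.X s) * D.w * (D.x * D.X s) * (D.w * D.x * D.X s * D.w) := by group
  rw [e1, D.xX]
  have hb := D.hb
  calc D.X s * D.x * D.w * (D.X s * D.x) * (D.w * D.x * D.X s * D.w)
      = D.X s * D.x * D.w * D.X s * (D.x * D.w * D.x) * D.X s * D.w := by group
    _ = D.X s * D.x * D.w * D.X s * (D.w * D.x * D.w) * D.X s * D.w := by rw [hb]
    _ = _ := by group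

/-- if `(1+s) f = 1 + t^j`, `s² ≡ 0`, then `a^j` commutes with `κ(s)`. -/
theorem kap_comm {N : ℕ} (hN : D.a ^ N = 1) (s z f : P2) (hs : s * s = (1 + (Polynomial.X : P2) ^ N) * z) (j : ℕ)
    (hf : f * (1 + s) = 1 + (Polynomial.X : P2) ^ j) : Commute (D.a ^ j) (D.kap s) := by
  set v := 1 + s with hv
  have hv2 : v * v = 1 + (1 + (Polynomial.X : P2) ^ N) * z := by
    rw [hv, ← hs]
    have : (1 + s) * (1 + s) = 1 + s * s + (s + s) := by ring
    rw [this, CharTwo.add_self_eq_zero, add_zero]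
  have hXf : D.X f = D.X v * (D.a ^ j * D.X v * (D.a ^ j)⁻¹) := by
    rw [← D.X_tpow, ← D.X_add]
    have e : v + (Polynomial.X : P2) ^ j * v = f + (1 + (Polynomial.X : P2) ^ N) * (f * z) := by
      have : v + (Polynomial.X : P2) ^ j * v = (1 + (Polynomial.X : P2) ^ j) * v := by ring
      rw [this, ← hf]
      have : f * v * v = f * (v * v) := by ring
      rw [this, hv2]; ring
    rw [e, D.X_add, D.X_mod hN, mul_one]
  have hkey := D.key j f v hf
  rw [hXf] at hkey
  have hg2 := D.X_sq v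
  have hc : D.a ^ j * D.X v * (D.a ^ j)⁻¹ * D.X v = D.X v * (D.a ^ j * D.X v * (D.a ^ j)⁻¹) := by
    rw [← D.X_tpow, D.X_comm]
  set g := D.X v with hg
  set h := D.Y v with hh
  set A := D.a ^ j with hA
  have hc' : A⁻¹ * g * A * g = g * (A⁻¹ * g * A) := by
    calc A⁻¹ * g * A * g = A⁻¹ * (g * (A * g * A⁻¹)) * A := by group
      _ = A⁻¹ * (A * g * A⁻¹ * g) * A := by rw [hc]
      _ = _ := by group
  have hR : A * (g * h * g) * A = g * h * g := by
    -- g A g A⁻¹ h = A h g A g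
    have k1 : g * A * g * A⁻¹ * h * g = A * h * g * A := by
      calc g * A * g * A⁻¹ * h * g = (g * (A * g * A⁻¹) * h) * g := by group
        _ = (A * (h * (g * (A * g * A⁻¹))) * A) * g := by rw [hkey]
        _ = A * h * g * A * (g * g) := by group
        _ = _ := by rw [hg2, mul_one]
    have k2 : A⁻¹ * g * A * g * (A⁻¹ * h * g) = h * g * A := by
      calc A⁻¹ * g * A * g * (A⁻¹ * h * g) = A⁻¹ * (g * A * g * A⁻¹ * h * g) := by group
        _ = A⁻¹ * (A * h * g * A) := by rw [k1]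
        _ = _ := by group
    rw [hc'] at k2
    have k3 : A⁻¹ * (g * h * g) = g * h * g * A := by
      calc A⁻¹ * (g * h * g) = (g * g) * (A⁻¹ * (g * h * g)) := by rw [hg2, one_mul]
        _ = g * (g * (A⁻¹ * g * A) * (A⁻¹ * h * g)) := by group
        _ = g * (h * g * A) := by rw [k2]
        _ = _ := by group
    calc A * (g * h * g) * A = A * (g * h * g * A) := by group
      _ = A * (A⁻¹ * (g * h * g)) := by rw [k3]
      _ = _ := by group
  have hk : D.kap s = g * h * g * D.w := by rw [← D.kap_eq]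
  rw [hk]
  have hwA : D.w * A = A⁻¹ * D.w := by
    have := D.wapow j
    rw [← hA] at this
    rw [← this, mul_assoc, D.hw, mul_one]
  show A * (g * h * g * D.w) = g * h * g * D.w * A
  calc A * (g * h * g * D.w) = A * (g * h * g) * A * A⁻¹ * D.w := by group
    _ = g * h * g * (A⁻¹ * D.w) := by rw [hR]; group
    _ = _ := by rw [← hwA]; group

end Data

end Pool.Agent.Helper622.Sidki
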