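import Mathlib
import Pool.Agent.Helper622.Sidki.TwoPow

set_option autoImplicit false

namespace Pool.Agent.Helper622.Sidki

open Polynomial

namespace Data

variable {G : Type*} [Group G] (D : Data G)

lemma commXY (k : ℕ) (hN : D.a ^ (2 ^ (k + 1)) = 1) (r s : P2) :
    Commute (D.X ((1 + (Polynomial.X : P2) ^ 2 ^ k) * r)) (D.Y ((1 + (Polynomial.X : P2) ^ 2 ^ k) * s)) := by
  have := D.commP (k + 1) hN (2 ^ k) (2 ^ k) (by rw [pow_succ]; ring) r s
  rwa [tau_pow] at this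

lemma commXU (k : ℕ) (hN : D.a ^ (2 ^ (k + 1)) = 1) (r s : P2) :
    Commute (D.X ((1 + (Polynomial.X : P2) ^ 2 ^ k) * r)) (D.U ((1 + (Polynomial.X : P2) ^ 2 ^ k) * s)) := by
  have h := D.commXY k hN r s
  have h2 := h.map (MulAut.conj D.x).toMonoidHom
  have e1 : (MulAut.conj D.x).toMonoidHom (D.X ((1 + (Polynomial.X : P2) ^ 2 ^ k) * r)) = D.X ((1 + (Polynomial.X : P2) ^ 2 ^ k) * r) := by
    show D.x * D.X ((1 + (Polynomial.X : P2) ^ 2 ^ k) * r) * D.x⁻¹ = _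
    rw [D.xX]; group
  have e2 : (MulAut.conj D.x).toMonoidHom (D.Y ((1 + (Polynomial.X : P2) ^ 2 ^ k) * s)) = D.U ((1 + (Polynomial.X : P2) ^ 2 ^ k) * s) := by
    show D.x * D.Y ((1 + (Polynomial.X : P2) ^ 2 ^ k) * s) * D.x⁻¹ = _
    rw [D.x_inv]; rfl
  rw [e1, e2] at h2
  exact h2

lemma commYU (k : ℕ) (hN : D.a ^ (2 ^ (k + 1)) = 1) (r s : P2) :
    Commute (D.Y ((1 + (Polynomial.X : P2) ^ 2 ^ k) * r)) (D.U ((1 + (Polynomial.X : P2) ^ 2 ^ k) * s)) := by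
  have h := D.commXU k hN r s
  have h2 := h.map (MulAut.conj D.w).toMonoidHom
  have e1 : (MulAut.conj D.w).toMonoidHom (D.X ((1 + (Polynomial.X : P2) ^ 2 ^ k) * r)) = D.Y ((1 + (Polynomial.X : P2) ^ 2 ^ k) * r) := by
    show D.w * D.X ((1 + (Polynomial.X : P2) ^ 2 ^ k) * r) * D.w⁻¹ = _
    rw [D.w_inv]; rfl
  have e2 : (MulAut.conj D.w).toMonoidHom (D.U ((1 + (Polynomial.X : P2) ^ 2 ^ k) * s)) = D.U ((1 + (Polynomial.X : P2) ^ 2 ^ k) * s) := by
    show D.w * D.U ((1 + (Polynomial.X : P2) ^ 2 ^ k) * s) * D.w⁻¹ = _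
    rw [D.w_inv, D.wU]
  rw [e1, e2] at h2
  exact h2

lemma kap_add (k : ℕ) (hN : D.a ^ (2 ^ (k + 1)) = 1) (r s : P2) :
    D.kap ((1 + (Polynomial.X : P2) ^ 2 ^ k) * (r + s)) = D.kap ((1 + (Polynomial.X : P2) ^ 2 ^ k) * r) * D.kap ((1 + (Polynomial.X : P2) ^ 2 ^ k) * s) := by
  unfold kap
  rw [mul_add, D.X_add, D.U_add, D.Y_add]
  have c1 := D.commXY k hN s r
  have c2 := D.commXU k hN s r
  have c3 := D.commYU k hN r s
  set X1 := D.X ((1 + (Polynomial.X : P2) ^ 2 ^ k) * r)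
  set X2 := D.X ((1 + (Polynomial.X : P2) ^ 2 ^ k) * s)
  set Y1 := D.Y ((1 + (Polynomial.X : P2) ^ 2 ^ k) * r)
  set Y2 := D.Y ((1 + (Polynomial.X : P2) ^ 2 ^ k) * s)
  set U1 := D.U ((1 + (Polynomial.X : P2) ^ 2 ^ k) * r)
  set U2 := D.U ((1 + (Polynomial.X : P2) ^ 2 ^ k) * s)
  calc X1 * X2 * (U1 * U2) * (Y1 * Y2) = X1 * (X2 * U1) * (U2 * Y1) * Y2 := by group
    _ = X1 * (U1 * X2) * (Y1 * U2) * Y2 := by rw [c2.eq, c3.eq]
    _ = X1 * U1 * (X2 * Y1) * U2 * Y2 := by group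
    _ = X1 * U1 * (Y1 * X2) * U2 * Y2 := by rw [c1.eq]
    _ = _ := by group

lemma kap_zero : D.kap 0 = 1 := by
  unfold kap U
  rw [D.X_zero, D.Y_zero]
  simp [D.hx]

/-- from squarefree to commuting with `a`. -/
lemma comm_of_squarefree (k : ℕ) (hN : D.a ^ (2 ^ (k + 1)) = 1) (u : P2)
    (hsep : Squarefree (1 + (1 + (Polynomial.X : P2) ^ 2 ^ k) * u)) (hc : IsCoprime (Polynomial.X : P2) (1 + (1 + (Polynomial.X : P2) ^ 2 ^ k) * u)) :
    Commute D.a (D.kap ((1 + (Polynomial.X : P2) ^ 2 ^ k) * u)) := by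
  obtain ⟨j, hj, f, hf⟩ := exists_odd _ hsep hc
  have h1 := D.kap_comm hN ((1 + (Polynomial.X : P2) ^ 2 ^ k) * u) (u * u) f (by
    rw [← tau_pow, ← tau_pow, pow_succ]; ring) j (by rw [mul_comm]; exact hf.symm)
  -- a is a power of a^j
  have hcop : Nat.Coprime j (2 ^ (k + 1)) := Nat.Coprime.pow_right _ hj.coprime_two_right
  obtain ⟨m, hm⟩ : ∃ m : ℕ, j * m ≡ 1 [MOD 2 ^ (k + 1)] := by
    obtain ⟨m, hm⟩ := Nat.exists_mul_mod_eq_one_of_coprime hcop (Nat.one_lt_two_pow (by omega))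
    refine ⟨m, ?_⟩
    unfold Nat.ModEq
    rw [hm.2, Nat.mod_eq_of_lt (Nat.one_lt_two_pow (by omega))]
  have h2 : D.a ^ (j * m) = D.a := by
    have := (pow_eq_pow_iff_modEq (x := D.a) (n := j * m) (m := 1)).mpr
      (hm.of_dvd (orderOf_dvd_of_pow_eq_one hN))
    rw [this, pow_one]
  have h3 := h1.pow_left m
  rw [← pow_mul, h2] at h3
  exact h3

/-- `κ(ε u)` commutes with `a`. -/
theorem a_comm_kap (k : ℕ) (hk : 1 ≤ k) (hN : D.a ^ (2 ^ (k + 1)) = 1) (u : P2) :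
    Commute D.a (D.kap ((1 + (Polynomial.X : P2) ^ 2 ^ k) * u)) := by
  obtain ⟨m, rfl⟩ := Nat.exists_eq_add_of_le hk
  set E : P2 := 1 + (Polynomial.X : P2) ^ 2 ^ m with hE
  have hE2 : 1 + (Polynomial.X : P2) ^ 2 ^ (1 + m) = E ^ 2 := by
    rw [hE, ← tau_pow, ← tau_pow, ← pow_mul, pow_add]
    congr 1; ring
  have hdE : ∀ g : P2, derivative (g ^ 2) = 0 := by
    intro g
    rw [derivative_sq]
    have : (C 2 : P2) = 0 := by
      rw [show (2 : ZMod 2) = 0 from rfl, map_zero]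
    rw [this]; ring
  have hodd : ∀ g : P2, Commute D.a (D.kap ((1 + (Polynomial.X : P2) ^ 2 ^ (1 + m)) * ((Polynomial.X : P2) * g ^ 2))) := by
    intro g
    apply D.comm_of_squarefree (1 + m) hN
    · apply Separable.squarefree
      rw [hE2]
      have : 1 + E ^ 2 * ((Polynomial.X : P2) * g ^ 2) = 1 + (E * g) ^ 2 * (Polynomial.X : P2) := by ring
      rw [this]
      refine ⟨1, (Polynomial.X : P2), ?_⟩
      rw [derivative_add, derivative_one, derivative_mul, hdE, derivative_X]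
      have : 1 * (1 + (E * g) ^ 2 * (Polynomial.X : P2)) + (Polynomial.X : P2) * (0 + (0 * (Polynomial.X : P2) + (E * g) ^ 2 * 1))
        = 1 + ((E * g) ^ 2 * (Polynomial.X : P2) + (E * g) ^ 2 * (Polynomial.X : P2)) := by ring
      rw [this, CharTwo.add_self_eq_zero, add_zero]
    · refine ⟨(1 + (Polynomial.X : P2) ^ 2 ^ (1 + m)) * g ^ 2, 1, ?_⟩
      have : (1 + (Polynomial.X : P2) ^ 2 ^ (1 + m)) * g ^ 2 * (Polynomial.X : P2) + 1 * (1 + (1 + (Polynomial.X : P2) ^ 2 ^ (1 + m)) * ((Polynomial.X : P2) * g ^ 2))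
        = 1 + ((1 + (Polynomial.X : P2) ^ 2 ^ (1 + m)) * g ^ 2 * (Polynomial.X : P2) + (1 + (Polynomial.X : P2) ^ 2 ^ (1 + m)) * g ^ 2 * (Polynomial.X : P2)) := by ring
      rw [this, CharTwo.add_self_eq_zero, add_zero]
  have hsum : ∀ g : P2, Commute D.a (D.kap ((1 + (Polynomial.X : P2) ^ 2 ^ (1 + m)) * ((Polynomial.X : P2) + ((Polynomial.X : P2) * g) ^ 2))) := by
    intro g
    apply D.comm_of_squarefree (1 + m) hN
    · apply Separable.squarefree
      rw [hE2]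
      have : 1 + E ^ 2 * ((Polynomial.X : P2) + ((Polynomial.X : P2) * g) ^ 2) = 1 + E ^ 2 * (Polynomial.X : P2) + (E * ((Polynomial.X : P2) * g)) ^ 2 := by ring
      rw [this]
      refine ⟨1, (Polynomial.X : P2) + ((Polynomial.X : P2) * g) ^ 2, ?_⟩
      rw [derivative_add, derivative_add, derivative_one, derivative_mul, hdE, hdE, derivative_X]
      have : 1 * (1 + E ^ 2 * (Polynomial.X : P2) + (E * ((Polynomial.X : P2) * g)) ^ 2) + ((Polynomial.X : P2) + ((Polynomial.X : P2) * g) ^ 2) * (0 + (0 * (Polynomial.X : P2) + E ^ 2 * 1) + 0)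
        = 1 + (E ^ 2 * (Polynomial.X : P2) + E ^ 2 * (Polynomial.X : P2)) + ((E * ((Polynomial.X : P2) * g)) ^ 2 + (E * ((Polynomial.X : P2) * g)) ^ 2) := by ring
      rw [this, CharTwo.add_self_eq_zero, CharTwo.add_self_eq_zero, add_zero, add_zero]
    · refine ⟨(1 + (Polynomial.X : P2) ^ 2 ^ (1 + m)) * (1 + (Polynomial.X : P2) * g ^ 2), 1, ?_⟩
      have : (1 + (Polynomial.X : P2) ^ 2 ^ (1 + m)) * (1 + (Polynomial.X : P2) * g ^ 2) * (Polynomial.X : P2)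
          + 1 * (1 + (1 + (Polynomial.X : P2) ^ 2 ^ (1 + m)) * ((Polynomial.X : P2) + ((Polynomial.X : P2) * g) ^ 2))
        = 1 + ((1 + (Polynomial.X : P2) ^ 2 ^ (1 + m)) * ((Polynomial.X : P2) + (Polynomial.X : P2) * (Polynomial.X : P2) * g ^ 2) + (1 + (Polynomial.X : P2) ^ 2 ^ (1 + m)) * ((Polynomial.X : P2) + (Polynomial.X : P2) * (Polynomial.X : P2) * g ^ 2)) := by
        ring
      rw [this, CharTwo.add_self_eq_zero, add_zero]
  have ht := hodd 1
  rw [one_pow, mul_one] at ht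
  have hsq : ∀ g : P2, Commute D.a (D.kap ((1 + (Polynomial.X : P2) ^ 2 ^ (1 + m)) * ((Polynomial.X : P2) * g) ^ 2)) := by
    intro g
    have h1 := hsum g
    have e : (Polynomial.X : P2) + ((Polynomial.X : P2) * g) ^ 2 = (Polynomial.X : P2) + ((Polynomial.X : P2) * g) ^ 2 := rfl
    rw [D.kap_add (1 + m) hN (Polynomial.X : P2) (((Polynomial.X : P2) * g) ^ 2)] at h1
    have h2 := ht.inv_right.mul_right h1
    rwa [inv_mul_cancel_left] at h2
  have hmono : ∀ n : ℕ, Commute D.a (D.kap ((1 + (Polynomial.X : P2) ^ 2 ^ (1 + m)) * (Polynomial.X : P2) ^ n)) := by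
    intro n
    rcases Nat.even_or_odd' n with ⟨l, rfl | rfl⟩
    · rcases Nat.eq_zero_or_pos l with rfl | hl
      · -- replace `1` by `t^N`
        have h1 := hsq ((Polynomial.X : P2) ^ (2 ^ (1 + m) - 1))
        have e1 : ((Polynomial.X : P2) * (Polynomial.X : P2) ^ (2 ^ (1 + m) - 1)) ^ 2 = (Polynomial.X : P2) ^ (2 ^ (1 + m + 1)) := by
          rw [← pow_succ', ← pow_mul]
          congr 1
          have : 1 ≤ 2 ^ (1 + m) := Nat.one_le_two_pow
          rw [pow_succ 2 (1 + m)]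
          omega
        rw [e1] at h1
        have e2 : (1 + (Polynomial.X : P2) ^ 2 ^ (1 + m)) * (Polynomial.X : P2) ^ (2 * 0)
          = (1 + (Polynomial.X : P2) ^ 2 ^ (1 + m)) * (Polynomial.X : P2) ^ (2 ^ (1 + m + 1))
            + (1 + (Polynomial.X : P2) ^ 2 ^ (1 + m + 1)) * (1 + (Polynomial.X : P2) ^ 2 ^ (1 + m)) := by
          have : (1 + (Polynomial.X : P2) ^ 2 ^ (1 + m)) * (Polynomial.X : P2) ^ (2 ^ (1 + m + 1))
            + (1 + (Polynomial.X : P2) ^ 2 ^ (1 + m + 1)) * (1 + (Polynomial.X : P2) ^ 2 ^ (1 + m))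
            = (1 + (Polynomial.X : P2) ^ 2 ^ (1 + m)) + ((1 + (Polynomial.X : P2) ^ 2 ^ (1 + m)) * (Polynomial.X : P2) ^ (2 ^ (1 + m + 1))
              + (1 + (Polynomial.X : P2) ^ 2 ^ (1 + m)) * (Polynomial.X : P2) ^ (2 ^ (1 + m + 1))) := by ring
          rw [this, CharTwo.add_self_eq_zero]; simp
        rw [e2]
        have e3 : D.kap ((1 + (Polynomial.X : P2) ^ 2 ^ (1 + m)) * (Polynomial.X : P2) ^ (2 ^ (1 + m + 1))
            + (1 + (Polynomial.X : P2) ^ 2 ^ (1 + m + 1)) * (1 + (Polynomial.X : P2) ^ 2 ^ (1 + m)))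
            = D.kap ((1 + (Polynomial.X : P2) ^ 2 ^ (1 + m)) * (Polynomial.X : P2) ^ (2 ^ (1 + m + 1))) := by
          unfold kap
          rw [D.X_add, D.U_add, D.Y_add, D.X_mod hN, D.Y_mod hN]
          unfold U
          rw [D.Y_mod hN]
          simp [D.hx]
        rw [e3]
        exact h1
      · obtain ⟨l', rfl⟩ := Nat.exists_eq_add_of_le hl
        have h1 := hsq ((Polynomial.X : P2) ^ l')
        have e1 : ((Polynomial.X : P2) * (Polynomial.X : P2) ^ l') ^ 2 = (Polynomial.X : P2) ^ (2 * (1 + l')) := by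
          rw [← pow_succ', ← pow_mul]; congr 1; ring
        rwa [e1] at h1
    · have h1 := hodd ((Polynomial.X : P2) ^ l)
      have e1 : (Polynomial.X : P2) * ((Polynomial.X : P2) ^ l) ^ 2 = (Polynomial.X : P2) ^ (2 * l + 1) := by
        rw [← pow_mul, pow_succ, mul_comm, mul_comm 2 l]
      rwa [e1] at h1
  induction u using Polynomial.induction_on' with
  | add p q hp hq =>
    rw [D.kap_add (1 + m) hN]
    exact hp.mul_right hq
  | monomial n c =>
    have hc : c = 0 ∨ c = 1 := by clear_value E; revert c; decide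
    rcases hc with rfl | rfl
    · simp [D.kap_zero]
    · rw [monomial_one_right_eq_X_pow]
      exact hmono n

end Data

end Pool.Agent.Helper622.Sidki
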