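import Mathlib
import Pool.Agent.Helper622.Sidki.Kappa

set_option autoImplicit false

namespace Pool.Agent.Helper622.Sidki

open Polynomial

/-- relators of `Y(3,N)` -/
def rels3 (N : ℕ) : Set (FreeGroup (Fin 3)) :=
  {r | (∃ k, r = FreeGroup.of k ^ N) ∨
    ∃ k l : Fin 3, ∃ i : ℕ, k ≠ l ∧ r = (FreeGroup.of k ^ i * FreeGroup.of l ^ i) ^ 2}

abbrev Y3 (N : ℕ) := PresentedGroup (rels3 N)

/-- the generators -/
def gn (N : ℕ) (k : Fin 3) : Y3 N := PresentedGroup.of k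

lemma gn_pow (N : ℕ) (k : Fin 3) : gn N k ^ N = 1 := by
  have : (FreeGroup.of k ^ N) ∈ rels3 N := Or.inl ⟨k, rfl⟩
  have := PresentedGroup.one_of_mem this
  rwa [map_pow] at this

lemma gn_rel (N : ℕ) (k l : Fin 3) (h : k ≠ l) (i : ℕ) : (gn N k ^ i * gn N l ^ i) ^ 2 = 1 := by
  have : ((FreeGroup.of k ^ i * FreeGroup.of l ^ i) ^ 2) ∈ rels3 N := Or.inr ⟨k, l, i, h, rfl⟩
  have := PresentedGroup.one_of_mem this
  rwa [map_pow, map_mul, map_pow, map_pow] at this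

/-- permutation-inversion endomorphism -/
def hp (N : ℕ) (π : Equiv.Perm (Fin 3)) : Y3 N →* Y3 N :=
  PresentedGroup.toGroup (f := fun k => (gn N (π k))⁻¹) (by
    rintro r (⟨k, rfl⟩ | ⟨k, l, i, hkl, rfl⟩)
    · rw [map_pow, FreeGroup.lift_apply_of, inv_pow, gn_pow, inv_one]
    · rw [map_pow, map_mul, map_pow, map_pow, FreeGroup.lift_apply_of, FreeGroup.lift_apply_of,
        inv_pow, inv_pow, ← mul_inv_rev, inv_pow, gn_rel, inv_one]
      intro h
      exact hkl (π.injective h).symm)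

lemma hp_gn (N : ℕ) (π : Equiv.Perm (Fin 3)) (k : Fin 3) : hp N π (gn N k) = (gn N (π k))⁻¹ := by
  unfold hp
  exact PresentedGroup.toGroup.of _

lemma hp_comp (N : ℕ) (π σ : Equiv.Perm (Fin 3)) (k : Fin 3) :
    hp N π (hp N σ (gn N k)) = gn N (π (σ k)) := by
  rw [hp_gn, map_inv, hp_gn, inv_inv]

lemma hp_invol (N : ℕ) (π : Equiv.Perm (Fin 3)) (h : ∀ k, π (π k) = k) :
    (hp N π).comp (hp N π) = MonoidHom.id _ := by
  apply PresentedGroup.ext
  intro k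
  have := hp_comp N π π k
  rw [h] at this
  exact this

/-- as an automorphism -/
def ap (N : ℕ) (π : Equiv.Perm (Fin 3)) (h : ∀ k, π (π k) = k) : MulAut (Y3 N) :=
  MonoidHom.toMulEquiv (hp N π) (hp N π) (hp_invol N π h) (hp_invol N π h)

lemma ap_gn (N : ℕ) (π : Equiv.Perm (Fin 3)) (h : ∀ k, π (π k) = k) (k : Fin 3) :
    ap N π h (gn N k) = (gn N (π k))⁻¹ := hp_gn N π k

lemma aut_ext (N : ℕ) (φ ψ : MulAut (Y3 N)) (h : ∀ k, φ (gn N k) = ψ (gn N k)) : φ = ψ := by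
  have : (φ : Y3 N ≃* Y3 N).toMonoidHom = (ψ : Y3 N ≃* Y3 N).toMonoidHom :=
    PresentedGroup.ext h
  apply MulEquiv.ext
  intro x
  exact DFunLike.congr_fun this x

/-- `ξ : g0 ↦ g1⁻¹, g1 ↦ g0⁻¹, g2 ↦ g2⁻¹` -/
def xi (N : ℕ) : MulAut (Y3 N) := ap N (Equiv.swap 0 1) (by decide)
/-- `ω : g0 ↦ g0⁻¹, g1 ↦ g2⁻¹, g2 ↦ g1⁻¹` -/
def om (N : ℕ) : MulAut (Y3 N) := ap N (Equiv.swap 1 2) (by decide)

lemma xi0 (N : ℕ) : xi N (gn N 0) = (gn N 1)⁻¹ := ap_gn _ _ _ _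
lemma xi1 (N : ℕ) : xi N (gn N 1) = (gn N 0)⁻¹ := ap_gn _ _ _ _
lemma xi2 (N : ℕ) : xi N (gn N 2) = (gn N 2)⁻¹ := ap_gn _ _ _ _
lemma om0 (N : ℕ) : om N (gn N 0) = (gn N 0)⁻¹ := ap_gn _ _ _ _
lemma om1 (N : ℕ) : om N (gn N 1) = (gn N 2)⁻¹ := ap_gn _ _ _ _
lemma om2 (N : ℕ) : om N (gn N 2) = (gn N 1)⁻¹ := ap_gn _ _ _ _

lemma xi_sq (N : ℕ) : xi N * xi N = 1 := by
  apply aut_ext
  intro k
  fin_cases k <;> simp [MulAut.mul_apply, xi0, xi1, xi2]

lemma om_sq (N : ℕ) : om N * om N = 1 := by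
  apply aut_ext
  intro k
  fin_cases k <;> simp [MulAut.mul_apply, om0, om1, om2]

lemma braid (N : ℕ) : om N * xi N * om N = xi N * om N * xi N := by
  apply aut_ext
  intro k
  fin_cases k <;> simp [MulAut.mul_apply, xi0, xi1, xi2, om0, om1, om2]

/-- the holomorph of `Y(3,N)` -/
abbrev Hol (N : ℕ) := Y3 N ⋊[MonoidHom.id (MulAut (Y3 N))] MulAut (Y3 N)

/-- the inclusion -/
def il (N : ℕ) : Y3 N →* Hol N := SemidirectProduct.inl
/-- the inclusion of the automorphism group -/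
def ir (N : ℕ) : MulAut (Y3 N) →* Hol N := SemidirectProduct.inr

lemma il_aut (N : ℕ) (φ : MulAut (Y3 N)) (g : Y3 N) :
    il N (φ g) = ir N φ * il N g * (ir N φ)⁻¹ := by
  have := SemidirectProduct.inl_aut (φ := MonoidHom.id (MulAut (Y3 N))) φ g
  rw [map_inv] at this
  exact this

lemma il_inj (N : ℕ) : Function.Injective (il N) := SemidirectProduct.inl_injective

lemma ir_xi_inv (N : ℕ) : (ir N (xi N))⁻¹ = ir N (xi N) := by
  rw [inv_eq_iff_mul_eq_one, ← map_mul, xi_sq, map_one]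

lemma ir_om_inv (N : ℕ) : (ir N (om N))⁻¹ = ir N (om N) := by
  rw [inv_eq_iff_mul_eq_one, ← map_mul, om_sq, map_one]

lemma comm_of_sq {G : Type*} [Group G] {x y : G} (hx : x * x = 1) (hy : y * y = 1)
    (h : (x * y) ^ 2 = 1) : Commute x y := by
  have hx' : x⁻¹ = x := by rw [inv_eq_iff_mul_eq_one, hx]
  have hy' : y⁻¹ = y := by rw [inv_eq_iff_mul_eq_one, hy]
  have h2 : (x * y)⁻¹ = x * y := by
    rw [inv_eq_iff_mul_eq_one, ← sq, h]
  rw [mul_inv_rev, hx', hy'] at h2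
  exact h2.symm

/-- the data -/
def dat (N : ℕ) : Data (Hol N) where
  a := il N (gn N 0)
  x := ir N (xi N)
  w := ir N (om N)
  hx := by rw [← map_mul, xi_sq, map_one]
  hw := by rw [← map_mul, om_sq, map_one]
  hb := by rw [← map_mul, ← map_mul, ← map_mul, ← map_mul, braid]
  ha := by
    have := il_aut N (om N) (gn N 0)
    rw [ir_om_inv, om0, map_inv] at this
    exact this.symm
  hc := by
    intro j
    have hx : ir N (xi N) * ir N (xi N) = 1 := by rw [← map_mul, xi_sq, map_one]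
    apply comm_of_sq hx
    · have : il N (gn N 0) ^ j * ir N (xi N) * (il N (gn N 0) ^ j)⁻¹
          * (il N (gn N 0) ^ j * ir N (xi N) * (il N (gn N 0) ^ j)⁻¹)
        = il N (gn N 0) ^ j * (ir N (xi N) * ir N (xi N)) * (il N (gn N 0) ^ j)⁻¹ := by group
      rw [this, hx]; group
    · have h1 := il_aut N (xi N) (gn N 0 ^ j)
      rw [ir_xi_inv, map_pow, xi0, map_pow, map_inv, map_pow] at h1
      have h2 : ir N (xi N) * (il N (gn N 0) ^ j * ir N (xi N) * (il N (gn N 0) ^ j)⁻¹)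
          = (il N (gn N 0 ^ j * gn N 1 ^ j))⁻¹ := by
        rw [map_mul, mul_inv_rev, map_pow, map_pow, ← inv_pow (il N (gn N 1)), h1]
        group
      rw [h2, inv_pow, ← map_pow, gn_rel N 0 1 (by decide), map_one, inv_one]

end Pool.Agent.Helper622.Sidki
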