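import Mathlib
import Pool.Agent.Helper622.Sidki.Y3

set_option autoImplicit false

namespace Pool.Agent.Helper622.Sidki

open Polynomial

section
variable (k : ℕ)

/-- `E(a,b;l) = a^l b^n a^{-l} a^n` -/
def EE {G : Type*} [Group G] (n : ℕ) (a b : G) (l : ℕ) : G := a ^ l * b ^ n * (a ^ l)⁻¹ * a ^ n
/-- `E'(a,b;l) = a^{-l} b^n a^{l} a^n` -/
def EF {G : Type*} [Group G] (n : ℕ) (a b : G) (l : ℕ) : G := (a ^ l)⁻¹ * b ^ n * a ^ l * a ^ n

lemma map_EE {G H : Type*} [Group G] [Group H] (f : G →* H) (n : ℕ) (a b : G) (l : ℕ) :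
    f (EE n a b l) = EE n (f a) (f b) l := by simp [EE]

lemma map_EF {G H : Type*} [Group G] [Group H] (f : G →* H) (n : ℕ) (a b : G) (l : ℕ) :
    f (EF n a b l) = EF n (f a) (f b) l := by simp [EF]

lemma dat_aN (N : ℕ) : (dat N).a ^ N = 1 := by
  show il N (gn N 0) ^ N = 1
  rw [← map_pow, gn_pow, map_one]

lemma g1_eq (N : ℕ) : il N (gn N 1) = (dat N).x * (dat N).a⁻¹ * (dat N).x := by
  have h1 := il_aut N (xi N) (gn N 0)⁻¹
  rw [ir_xi_inv, map_inv, xi0, inv_inv, map_inv] at h1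
  exact h1

lemma g2_eq (N : ℕ) : il N (gn N 2) = (dat N).w * (dat N).x * (dat N).a * (dat N).x * (dat N).w := by
  have h1 := il_aut N (om N) (gn N 1)⁻¹
  rw [ir_om_inv, map_inv, om1, inv_inv, map_inv, g1_eq] at h1
  rw [h1]
  simp only [mul_inv_rev, inv_inv]
  rw [(dat N).x_inv]
  show (dat N).w * _ * (dat N).w = _
  group

lemma conj_pow' {G : Type*} [Group G] {x a : G} (hx : x * x = 1) (n : ℕ) :
    (x * a * x) ^ n = x * a ^ n * x := by
  have hx' : x = x⁻¹ := by rw [eq_inv_iff_mul_eq_one, hx]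
  have : x * a * x = x * a * x⁻¹ := by rw [← hx']
  rw [this, conj_pow, ← hx']

variable {N : ℕ}

lemma g1_pow (N n : ℕ) : il N (gn N 1) ^ n = (dat N).x * ((dat N).a ^ n)⁻¹ * (dat N).x := by
  rw [g1_eq, conj_pow' (dat N).hx, inv_pow]

lemma g2_pow (N n : ℕ) : il N (gn N 2) ^ n
    = (dat N).w * (dat N).x * (dat N).a ^ n * (dat N).x * (dat N).w := by
  rw [g2_eq]
  have : (dat N).w * (dat N).x * (dat N).a * (dat N).x * (dat N).w
    = (dat N).w * ((dat N).x * (dat N).a * (dat N).x) * (dat N).w := by group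
  rw [this, conj_pow' (dat N).hw, conj_pow' (dat N).hx]
  group

lemma X_eps (D : Data (Hol N)) (n l : ℕ) :
    D.X ((1 + (Polynomial.X : P2) ^ n) * (Polynomial.X : P2) ^ l) = D.a ^ l * (D.x * (D.a ^ n * D.x * (D.a ^ n)⁻¹)) * (D.a ^ l)⁻¹ := by
  rw [mul_comm, D.X_tpow, D.X_add, D.X_one]
  have := D.X_tpow n 1
  rw [mul_one, D.X_one] at this
  rw [this]

lemma EE_eq {n : ℕ} (hn : 2 * n = N) (l : ℕ) :
    EE n (il N (gn N 0)) (il N (gn N 1)) l = (dat N).X ((1 + (Polynomial.X : P2) ^ n) * (Polynomial.X : P2) ^ l) := by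
  rw [X_eps]
  unfold EE
  rw [g1_pow]
  have ha : (dat N).a ^ n * (dat N).a ^ n = 1 := by
    rw [← pow_add, ← two_mul, hn]; exact dat_aN N
  have ha' : ((dat N).a ^ n)⁻¹ = (dat N).a ^ n := by rw [inv_eq_iff_mul_eq_one, ha]
  rw [ha']
  show (dat N).a ^ l * _ * ((dat N).a ^ l)⁻¹ * (dat N).a ^ n = _
  have hc : ((dat N).a ^ l)⁻¹ * (dat N).a ^ n = (dat N).a ^ n * ((dat N).a ^ l)⁻¹ :=
    (Commute.pow_pow_self (dat N).a l n).inv_left.eq
  rw [mul_assoc, hc]
  group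

lemma EF_eq {n : ℕ} (hn : 2 * n = N) (l : ℕ) :
    EF n (il N (gn N 0)) (il N (gn N 2)) l = (dat N).Y ((1 + (Polynomial.X : P2) ^ n) * (Polynomial.X : P2) ^ l) := by
  unfold EF Data.Y
  rw [X_eps, g2_pow]
  have ha : (dat N).a ^ n * (dat N).a ^ n = 1 := by
    rw [← pow_add, ← two_mul, hn]; exact dat_aN N
  have ha' : ((dat N).a ^ n)⁻¹ = (dat N).a ^ n := by rw [inv_eq_iff_mul_eq_one, ha]
  show ((dat N).a ^ l)⁻¹ * _ * (dat N).a ^ l * (dat N).a ^ n = _
  have hl := (dat N).wapow l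
  have hn2 := (dat N).wapow n
  have h1 : (dat N).w * (dat N).a ^ l = ((dat N).a ^ l)⁻¹ * (dat N).w := by
    rw [← hl, mul_assoc, (dat N).hw, mul_one]
  have h2 : (dat N).w * (dat N).a ^ n = ((dat N).a ^ n)⁻¹ * (dat N).w := by
    rw [← hn2, mul_assoc, (dat N).hw, mul_one]
  have h4 : (dat N).w * (dat N).a ^ l * (dat N).a ^ n = ((dat N).a ^ n)⁻¹ * (((dat N).a ^ l)⁻¹ * (dat N).w) := by
    rw [mul_assoc, (Commute.pow_pow_self (dat N).a l n).eq, ← mul_assoc, h2, mul_assoc, h1]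
  calc ((dat N).a ^ l)⁻¹ * ((dat N).w * (dat N).x * (dat N).a ^ n * (dat N).x * (dat N).w) * (dat N).a ^ l * (dat N).a ^ n
      = (((dat N).a ^ l)⁻¹ * (dat N).w) * (dat N).x * (dat N).a ^ n * (dat N).x * ((dat N).w * (dat N).a ^ l * (dat N).a ^ n) := by group
    _ = ((dat N).w * (dat N).a ^ l) * (dat N).x * (dat N).a ^ n * (dat N).x * (((dat N).a ^ n)⁻¹ * (((dat N).a ^ l)⁻¹ * (dat N).w)) := by
        rw [h4, h1]
    _ = _ := by group

lemma EE12_eq {n : ℕ} (hn : 2 * n = N) (l : ℕ) :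
    EE n (il N (gn N 1)) (il N (gn N 2)) l = (dat N).U ((1 + (Polynomial.X : P2) ^ n) * (Polynomial.X : P2) ^ l) := by
  unfold Data.U
  rw [← EF_eq hn]
  have h1 := il_aut N (xi N) (EF n (gn N 0) (gn N 2) l)
  rw [ir_xi_inv] at h1
  have h2 : xi N (EF n (gn N 0) (gn N 2) l) = EE n (gn N 1) (gn N 2) l := by
    unfold EF EE
    rw [map_mul, map_mul, map_mul, map_inv, map_pow, map_pow, map_pow, xi0, xi2]
    have e1 : ∀ k, ((gn N k)⁻¹) ^ n = (gn N k) ^ n := by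
      intro k
      rw [inv_pow, inv_eq_iff_mul_eq_one, ← pow_add, ← two_mul, hn, gn_pow]
    rw [e1, e1, inv_pow, inv_inv]
  rw [h2] at h1
  rw [map_EE, map_EF] at h1
  exact h1

lemma commute_of_map {A B : Type*} [Group A] [Group B] {f : A →* B} (hf : Function.Injective f)
    {x y : A} (h : Commute (f x) (f y)) : Commute x y := by
  apply hf
  rw [map_mul, map_mul]
  exact h

theorem factZ3 (k l m : ℕ) : Commute (EE (2 ^ k) (gn (2 ^ (k + 1)) 0) (gn (2 ^ (k + 1)) 1) l)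
    (EF (2 ^ k) (gn (2 ^ (k + 1)) 0) (gn (2 ^ (k + 1)) 2) m) := by
  have hn : 2 * 2 ^ k = 2 ^ (k + 1) := by rw [pow_succ]; ring
  have h := (dat (2 ^ (k + 1))).commXY k (dat_aN _) ((Polynomial.X : P2) ^ l) ((Polynomial.X : P2) ^ m)
  rw [← EE_eq hn, ← EF_eq hn, ← map_EE, ← map_EF] at h
  exact commute_of_map (il_inj _) h

theorem factK3 (k : ℕ) (hk : 1 ≤ k) (l : ℕ) : Commute (gn (2 ^ (k + 1)) 0)
    (EE (2 ^ k) (gn (2 ^ (k + 1)) 0) (gn (2 ^ (k + 1)) 1) l
      * EE (2 ^ k) (gn (2 ^ (k + 1)) 1) (gn (2 ^ (k + 1)) 2) l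
      * EF (2 ^ k) (gn (2 ^ (k + 1)) 0) (gn (2 ^ (k + 1)) 2) l) := by
  have hn : 2 * 2 ^ k = 2 ^ (k + 1) := by rw [pow_succ]; ring
  have h := (dat (2 ^ (k + 1))).a_comm_kap k hk (dat_aN _) ((Polynomial.X : P2) ^ l)
  unfold Data.kap at h
  rw [← EE_eq hn, ← EF_eq hn, ← EE12_eq hn, ← map_EE, ← map_EF, ← map_EE, ← map_mul, ← map_mul] at h
  exact commute_of_map (il_inj _) h

end

/-- three elements satisfying the relations of `Y(3,N)` -/
structure Tri {G : Type*} [Group G] (N : ℕ) (a b c : G) : Prop where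
  pa : a ^ N = 1
  pb : b ^ N = 1
  pc : c ^ N = 1
  ab : ∀ i : ℕ, (a ^ i * b ^ i) ^ 2 = 1
  ac : ∀ i : ℕ, (a ^ i * c ^ i) ^ 2 = 1
  bc : ∀ i : ℕ, (b ^ i * c ^ i) ^ 2 = 1

lemma swap_rel {G : Type*} [Group G] {a b : G} (h : (a * b) ^ 2 = 1) : (b * a) ^ 2 = 1 := by
  have : (b * a) ^ 2 = a⁻¹ * (a * b) ^ 2 * a := by rw [sq, sq]; group
  rw [this, h]; group

/-- the homomorphism -/
def Tri.hom {G : Type*} [Group G] {N : ℕ} {a b c : G} (h : Tri N a b c) : Y3 N →* G :=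
  PresentedGroup.toGroup (f := ![a, b, c]) (by
    rintro r (⟨k, rfl⟩ | ⟨k, l, i, hkl, rfl⟩)
    · rw [map_pow, FreeGroup.lift_apply_of]
      fin_cases k
      · exact h.pa
      · exact h.pb
      · exact h.pc
    · rw [map_pow, map_mul, map_pow, map_pow, FreeGroup.lift_apply_of, FreeGroup.lift_apply_of]
      fin_cases k <;> fin_cases l
      · exact absurd rfl hkl
      · exact h.ab i
      · exact h.ac i
      · exact swap_rel (h.ab i)
      · exact absurd rfl hkl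
      · exact h.bc i
      · exact swap_rel (h.ac i)
      · exact swap_rel (h.bc i)
      · exact absurd rfl hkl)

lemma Tri.hom_gn {G : Type*} [Group G] {N : ℕ} {a b c : G} (h : Tri N a b c) (k : Fin 3) :
    h.hom (gn N k) = ![a, b, c] k := by
  unfold Tri.hom
  exact PresentedGroup.toGroup.of _

/-- the two families of relations of `Y(3,2n)` which are needed -/
def ZK (n : ℕ) : Prop :=
  (∀ l m : ℕ, Commute (EE n (gn (2 * n) 0) (gn (2 * n) 1) l) (EF n (gn (2 * n) 0) (gn (2 * n) 2) m)) ∧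
  (∀ l : ℕ, Commute (gn (2 * n) 0) (EE n (gn (2 * n) 0) (gn (2 * n) 1) l
      * EE n (gn (2 * n) 1) (gn (2 * n) 2) l * EF n (gn (2 * n) 0) (gn (2 * n) 2) l))

theorem ZK_two_pow (k : ℕ) : ZK (2 ^ k) := by
  have hn : 2 * 2 ^ k = 2 ^ (k + 1) := by rw [pow_succ]; ring
  unfold ZK
  rw [hn]
  refine ⟨factZ3 k, ?_⟩
  rcases Nat.eq_zero_or_pos k with rfl | hk
  · intro l
    -- `N = 2`: everything commutes
    have hc : ∀ i j : Fin 3, Commute (gn (2 ^ (0 + 1)) i) (gn (2 ^ (0 + 1)) j) := by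
      intro i j
      by_cases hij : i = j
      · rw [hij]
      · have pi := gn_pow (2 ^ (0 + 1)) i
        have pj := gn_pow (2 ^ (0 + 1)) j
        have pij := gn_rel (2 ^ (0 + 1)) i j hij 1
        simp only [zero_add, pow_one] at pi pj pij
        rw [sq] at pi pj
        exact comm_of_sq pi pj pij
    unfold EE EF
    refine Commute.mul_right (Commute.mul_right ?_ ?_) ?_
    · exact (((((hc _ _).pow_right l).mul_right ((hc _ _).pow_right _)).mul_right
        ((hc _ _).pow_right l).inv_right).mul_right ((hc _ _).pow_right _))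
    · exact (((((hc _ _).pow_right l).mul_right ((hc _ _).pow_right _)).mul_right
        ((hc _ _).pow_right l).inv_right).mul_right ((hc _ _).pow_right _))
    · exact (((((hc _ _).pow_right l).inv_right.mul_right ((hc _ _).pow_right _)).mul_right
        ((hc _ _).pow_right l)).mul_right ((hc _ _).pow_right _))
  · exact factK3 k hk

theorem Tri.factZ {G : Type*} [Group G] {n : ℕ} (hzk : ZK n) {a b c : G} (h : Tri (2 * n) a b c)
    (l m : ℕ) : Commute (EE n a b l) (EF n a c m) := by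
  have := (hzk.1 l m).map h.hom
  rw [map_EE, map_EF, h.hom_gn, h.hom_gn, h.hom_gn] at this
  exact this

theorem Tri.factK {G : Type*} [Group G] {n : ℕ} (hzk : ZK n) {a b c : G} (h : Tri (2 * n) a b c)
    (l : ℕ) : Commute a (EE n a b l * EE n b c l * EF n a c l) := by
  have := (hzk.2 l).map h.hom
  rw [map_mul, map_mul, map_EE, map_EE, map_EF, h.hom_gn, h.hom_gn, h.hom_gn] at this
  exact this

end Pool.Agent.Helper622.Sidki
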