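import Mathlib
import Pool.Agent.Helper622.Sidki.Facts

set_option autoImplicit false

namespace Pool.Agent.Helper622.Sidki

section two
variable {G : Type*} [Group G] {a b : G}

lemma xx_inv (h : ∀ i : ℕ, (a ^ i * b ^ i) ^ 2 = 1) (i : ℕ) : a ^ i * b ^ i = (b ^ i)⁻¹ * (a ^ i)⁻¹ := by
  have := h i
  rw [← mul_inv_rev, eq_inv_iff_mul_eq_one, ← sq, this]

lemma xx_comm_aux (h : ∀ i : ℕ, (a ^ i * b ^ i) ^ 2 = 1) (i j : ℕ) :
    Commute (a ^ (i + j) * b ^ (i + j)) (a ^ j * b ^ j) := by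
  apply comm_of_sq
  · rw [← sq, h]
  · rw [← sq, h]
  · have e : a ^ (i + j) * b ^ (i + j) * (a ^ j * b ^ j) = a ^ j * (a ^ i * b ^ i) * (a ^ j)⁻¹ := by
      rw [xx_inv h j, add_comm i j, pow_add a j i, add_comm j i, pow_add b i j]
      group
    rw [e, conj_pow, h]
    group

lemma xx_comm (h : ∀ i : ℕ, (a ^ i * b ^ i) ^ 2 = 1) (i j : ℕ) :
    Commute (a ^ i * b ^ i) (a ^ j * b ^ j) := by
  rcases le_total i j with hij | hij
  · obtain ⟨k, rfl⟩ := Nat.exists_eq_add_of_le hij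
    rw [add_comm i k]
    exact (xx_comm_aux h k i).symm
  · obtain ⟨k, rfl⟩ := Nat.exists_eq_add_of_le hij
    rw [add_comm j k]
    exact xx_comm_aux h k j

variable {n : ℕ}

lemma pow_n_inv (ha : a ^ (2 * n) = 1) : (a ^ n)⁻¹ = a ^ n := by
  rw [inv_eq_iff_mul_eq_one, ← pow_add, ← two_mul, ha]

lemma sn_comm (ha : a ^ (2 * n) = 1) (hb : b ^ (2 * n) = 1)
    (h : ∀ i : ℕ, (a ^ i * b ^ i) ^ 2 = 1) : Commute (a ^ n) (b ^ n) := by
  apply comm_of_sq
  · rw [← pow_add, ← two_mul, ha]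
  · rw [← pow_add, ← two_mul, hb]
  · exact h n

lemma EE_xx (ha : a ^ (2 * n) = 1) (hb : b ^ (2 * n) = 1)
    (h : ∀ i : ℕ, (a ^ i * b ^ i) ^ 2 = 1) (l : ℕ) :
    EE n a b l = (a ^ (n + l) * b ^ (n + l)) * (a ^ l * b ^ l) := by
  unfold EE
  rw [xx_inv h l]
  have hc := sn_comm ha hb h
  have hcl : Commute (a ^ l) (a ^ n) := Commute.pow_pow_self a l n
  calc a ^ l * b ^ n * (a ^ l)⁻¹ * a ^ n = a ^ l * b ^ n * (a ^ n * (a ^ l)⁻¹) := by
        rw [← hcl.inv_left.eq]; group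
    _ = a ^ l * (a ^ n * b ^ n) * (a ^ l)⁻¹ := by rw [hc.eq]; group
    _ = _ := by rw [add_comm n l, pow_add a l n, add_comm l n, pow_add b n l]; group

lemma EF_xx (h : ∀ i : ℕ, (a ^ i * b ^ i) ^ 2 = 1) (l : ℕ) :
    EF n b a l = (a ^ l * b ^ l) * (a ^ (n + l) * b ^ (n + l)) := by
  unfold EF
  rw [xx_inv h l, add_comm n l, pow_add a l n, pow_add b l n]
  group

lemma EE_symm (ha : a ^ (2 * n) = 1) (hb : b ^ (2 * n) = 1)
    (h : ∀ i : ℕ, (a ^ i * b ^ i) ^ 2 = 1) (l : ℕ) : EE n a b l = EF n b a l := by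
  rw [EE_xx ha hb h, EF_xx h, (xx_comm h _ _).eq]

lemma pow_back (hn : 1 ≤ n) (ha : a ^ (2 * n) = 1) (l : ℕ) :
    a ^ ((2 * n - 1) * l) = (a ^ l)⁻¹ := by
  rw [eq_inv_iff_mul_eq_one, ← pow_add]
  have : (2 * n - 1) * l + l = 2 * n * l := by
    obtain ⟨c, hc⟩ : ∃ c, 2 * n = c + 1 := ⟨2 * n - 1, by omega⟩
    rw [hc]; simp; ring
  rw [this, pow_mul, ha, one_pow]

lemma EF_EE (hn : 1 ≤ n) (ha : a ^ (2 * n) = 1) (l : ℕ) :
    EF n a b l = EE n a b ((2 * n - 1) * l) := by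
  unfold EF EE
  rw [pow_back hn ha, inv_inv]

lemma EE_EF (hn : 1 ≤ n) (ha : a ^ (2 * n) = 1) (l : ℕ) :
    EE n a b l = EF n a b ((2 * n - 1) * l) := by
  unfold EF EE
  rw [pow_back hn ha, inv_inv]

end two

section family
variable {G : Type*} [Group G] {ι : Type*} (g : ι → G) {n : ℕ}

/-- the generators of the kernel -/
def gens (n : ℕ) : Set G :=
  {y | (∃ i, y = g i ^ n) ∨ ∃ i j : ι, ∃ l : ℕ, i ≠ j ∧ y = EE n (g i) (g j) l}

/-- the kernel -/
def MM (n : ℕ) : Subgroup G := Subgroup.closure (gens g n)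

variable {g}
variable (hn : 1 ≤ n) (hp : ∀ i, g i ^ (2 * n) = 1)
  (hr : ∀ i j, i ≠ j → ∀ p : ℕ, (g i ^ p * g j ^ p) ^ 2 = 1) (hzk : ZK n)

include hp hr in
lemma tri {i j l : ι} (hij : i ≠ j) (hil : i ≠ l) (hjl : j ≠ l) : Tri (2 * n) (g i) (g j) (g l) :=
  ⟨hp i, hp j, hp l, hr i j hij, hr i l hil, hr j l hjl⟩

include hn hp hr in
/-- symmetry -/
lemma E_symm {i j : ι} (hij : i ≠ j) (l : ℕ) :
    EE n (g i) (g j) l = EE n (g j) (g i) ((2 * n - 1) * l) := by
  rw [EE_symm (hp i) (hp j) (hr i j hij), EF_EE hn (hp j)]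

include hp hr in
lemma E_comm_same {i j : ι} (hij : i ≠ j) (l l' : ℕ) :
    Commute (EE n (g i) (g j) l) (EE n (g i) (g j) l') := by
  rw [EE_xx (hp i) (hp j) (hr i j hij), EE_xx (hp i) (hp j) (hr i j hij)]
  have h := fun p q => xx_comm (hr i j hij) p q
  exact ((h _ _).mul_right (h _ _)).mul_left ((h _ _).mul_right (h _ _))

include hn hp hr hzk in
lemma E_comm_Z {i j j' : ι} (hij : i ≠ j) (hij' : i ≠ j') (hjj' : j ≠ j') (l l' : ℕ) :
    Commute (EE n (g i) (g j) l) (EE n (g i) (g j') l') := by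
  have := (tri hp hr hij hij' hjj').factZ hzk l ((2 * n - 1) * l')
  rwa [← EE_EF hn (hp i)] at this

include hn hp hr hzk in
lemma E_comm1 {i j j' : ι} (hij : i ≠ j) (hij' : i ≠ j') (l l' : ℕ) :
    Commute (EE n (g i) (g j) l) (EE n (g i) (g j') l') := by
  by_cases h : j = j'
  · subst h; exact E_comm_same hp hr hij l l'
  · exact E_comm_Z hn hp hr hzk hij hij' h l l'

include hp hr in
lemma s_comm (i j : ι) : Commute (g i ^ n) (g j ^ n) := by
  by_cases h : i = j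
  · subst h; exact Commute.refl _
  · exact sn_comm (hp i) (hp j) (hr i j h)

include hp hr in
lemma s_E_first {i j : ι} (l : ℕ) : Commute (g i ^ n) (EE n (g i) (g j) l) := by
  unfold EE
  have c1 : Commute (g i ^ n) (g i ^ l) := Commute.pow_pow_self _ _ _
  exact ((c1.mul_right (s_comm hp hr i j)).mul_right c1.inv_right).mul_right (Commute.refl _)

include hn hp hr hzk in
lemma s_E (i : ι) {p q : ι} (hpq : p ≠ q) (l : ℕ) : Commute (g i ^ n) (EE n (g p) (g q) l) := by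
  by_cases h1 : i = p
  · subst h1; exact s_E_first hp hr l
  by_cases h2 : i = q
  · subst h2
    rw [E_symm hn hp hr hpq]
    exact s_E_first hp hr _
  · have hz := E_comm_Z hn hp hr hzk (i := p) (j := q) (j' := i) hpq (Ne.symm h1) (Ne.symm h2) l 0
    have h3 := s_E_first hp hr (i := p) (j := q) l
    have e : EE n (g p) (g i) 0 = g i ^ n * g p ^ n := by simp [EE]
    rw [e] at hz
    have h4 := hz.mul_right h3.symm.inv_right
    rw [mul_inv_cancel_right] at h4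
    exact h4.symm

include hn hp hr hzk in
/-- conjugation by `g i` -/
lemma conj_E {i p q : ι} (hip : i ≠ p) (hiq : i ≠ q) (hpq : p ≠ q) (T : Subgroup G)
    (h1 : ∀ l, EE n (g i) (g p) l ∈ T) (h2 : ∀ l, EE n (g p) (g q) l ∈ T)
    (h3 : ∀ l, EE n (g i) (g q) l ∈ T) (l : ℕ) : g i * EE n (g p) (g q) l * (g i)⁻¹ ∈ T := by
  have hK := (tri hp hr hip hiq hpq).factK hzk l
  rw [EF_EE hn (hp i)] at hK
  set A := EE n (g i) (g p) l with hA
  set B := EE n (g p) (g q) l with hB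
  set C := EE n (g i) (g q) ((2 * n - 1) * l) with hC
  have eA : g i * A * (g i)⁻¹ = EE n (g i) (g p) (l + 1) := by
    rw [hA]; unfold EE
    have c : (g i) ^ n * (g i)⁻¹ = (g i)⁻¹ * (g i) ^ n := ((Commute.refl (g i)).pow_left n).inv_right.eq
    calc g i * (g i ^ l * g p ^ n * (g i ^ l)⁻¹ * g i ^ n) * (g i)⁻¹
        = g i * (g i ^ l * g p ^ n * (g i ^ l)⁻¹ * (g i ^ n * (g i)⁻¹)) := by group
      _ = _ := by rw [c, pow_succ']; group
  have eC : g i * C * (g i)⁻¹ = EE n (g i) (g q) ((2 * n - 1) * l + 1) := by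
    rw [hC]; unfold EE
    have c : (g i) ^ n * (g i)⁻¹ = (g i)⁻¹ * (g i) ^ n := ((Commute.refl (g i)).pow_left n).inv_right.eq
    calc g i * (g i ^ ((2 * n - 1) * l) * g q ^ n * (g i ^ ((2 * n - 1) * l))⁻¹ * g i ^ n) * (g i)⁻¹
        = g i * (g i ^ ((2 * n - 1) * l) * g q ^ n * (g i ^ ((2 * n - 1) * l))⁻¹ * (g i ^ n * (g i)⁻¹)) := by group
      _ = _ := by rw [c, pow_succ']; group
  have e : g i * B * (g i)⁻¹ = (g i * A * (g i)⁻¹)⁻¹ * (A * B * C) * (g i * C * (g i)⁻¹)⁻¹ := by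
    have h := hK.eq
    have h' : A * B * C = g i * (A * B * C) * (g i)⁻¹ := by rw [h]; group
    rw [h']
    group
  rw [e, eA, eC]
  exact T.mul_mem (T.mul_mem (T.inv_mem (h1 _)) (T.mul_mem (T.mul_mem (h1 _) (h2 _)) (h3 _)))
    (T.inv_mem (h3 _))

lemma conj_E_first {i j : ι} (l : ℕ) :
    g i * EE n (g i) (g j) l * (g i)⁻¹ = EE n (g i) (g j) (l + 1) := by
  unfold EE
  have c : (g i) ^ n * (g i)⁻¹ = (g i)⁻¹ * (g i) ^ n := ((Commute.refl (g i)).pow_left n).inv_right.eq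
  calc g i * (g i ^ l * g j ^ n * (g i ^ l)⁻¹ * g i ^ n) * (g i)⁻¹
      = g i * (g i ^ l * g j ^ n * (g i ^ l)⁻¹ * (g i ^ n * (g i)⁻¹)) := by group
    _ = _ := by rw [c, pow_succ']; group

/-- closure of a set whose conjugates stay in the subgroup -/
lemma conj_closure (S : Set G) (y : G) (h : ∀ s ∈ S, y * s * y⁻¹ ∈ Subgroup.closure S) :
    ∀ m : ℕ, ∀ u ∈ Subgroup.closure S, y ^ m * u * (y ^ m)⁻¹ ∈ Subgroup.closure S := by
  have h1 : ∀ u ∈ Subgroup.closure S, y * u * y⁻¹ ∈ Subgroup.closure S := by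
    intro u hu
    refine Subgroup.closure_induction (p := fun v _ => y * v * y⁻¹ ∈ Subgroup.closure S)
      (fun v hv => h v hv) ?_ ?_ ?_ hu
    · simp
    · intro u v _ _ iu iv
      have : y * (u * v) * y⁻¹ = (y * u * y⁻¹) * (y * v * y⁻¹) := by group
      rw [this]; exact Subgroup.mul_mem _ iu iv
    · intro u _ iu
      have : y * u⁻¹ * y⁻¹ = (y * u * y⁻¹)⁻¹ := by group
      rw [this]; exact Subgroup.inv_mem _ iu
  intro m
  induction m with
  | zero => intro u hu; simpa using hu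
  | succ m ih =>
    intro u hu
    have := h1 _ (ih u hu)
    have e : y ^ (m + 1) * u * (y ^ (m + 1))⁻¹ = y * (y ^ m * u * (y ^ m)⁻¹) * y⁻¹ := by
      rw [pow_succ']; group
    rw [e]; exact this

include hn hp hr hzk in
/-- the disjoint case -/
lemma E_comm_disj {i j l p : ι} (hij : i ≠ j) (hil : i ≠ l) (hjl : j ≠ l) (hip : i ≠ p) (hjp : j ≠ p)
    (hlp : l ≠ p) (m m' : ℕ) : Commute (EE n (g i) (g j) m) (EE n (g l) (g p) m') := by
  set S : Set G := {y | ∃ r : ℕ, y = EE n (g i) (g j) r ∨ y = EE n (g l) (g i) r ∨ y = EE n (g l) (g j) r}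
    with hS
  have hin1 : ∀ r, EE n (g i) (g j) r ∈ Subgroup.closure S := fun r =>
    Subgroup.subset_closure ⟨r, Or.inl rfl⟩
  have hin2 : ∀ r, EE n (g l) (g i) r ∈ Subgroup.closure S := fun r =>
    Subgroup.subset_closure ⟨r, Or.inr (Or.inl rfl)⟩
  have hin3 : ∀ r, EE n (g l) (g j) r ∈ Subgroup.closure S := fun r =>
    Subgroup.subset_closure ⟨r, Or.inr (Or.inr rfl)⟩
  have hcl := conj_closure S (g l) (by
    rintro s ⟨r, rfl | rfl | rfl⟩
    · exact conj_E hn hp hr hzk hil.symm hjl.symm hij _ hin2 hin1 hin3 r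
    · rw [conj_E_first]; exact hin2 _
    · rw [conj_E_first]; exact hin3 _)
  have hcomm : ∀ u ∈ Subgroup.closure S, Commute (g p ^ n) u := by
    intro u hu
    refine Subgroup.closure_induction (p := fun v _ => Commute (g p ^ n) v) ?_ ?_ ?_ ?_ hu
    · rintro s ⟨r, rfl | rfl | rfl⟩
      · exact s_E hn hp hr hzk p hij r
      · exact s_E hn hp hr hzk p hil.symm r
      · exact s_E hn hp hr hzk p hjl.symm r
    · exact Commute.one_right _
    · intro u v _ _ iu iv; exact iu.mul_right iv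
    · intro u _ iu; exact iu.inv_right
  have h1 := hcomm _ (hcl ((2 * n - 1) * m') _ (hin1 m))
  rw [pow_back hn (hp l), inv_inv] at h1
  -- conjugate back
  have h2 : Commute (g l ^ m' * g p ^ n * (g l ^ m')⁻¹) (EE n (g i) (g j) m) := by
    have h3 := h1.map (MulAut.conj (g l ^ m')).toMonoidHom
    have e : ∀ y : G, (MulAut.conj (g l ^ m')).toMonoidHom y = g l ^ m' * y * (g l ^ m')⁻¹ := fun y => rfl
    rw [e, e] at h3
    have e2 : g l ^ m' * ((g l ^ m')⁻¹ * EE n (g i) (g j) m * g l ^ m') * (g l ^ m')⁻¹ = EE n (g i) (g j) m := by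
      group
    rwa [e2] at h3
  have h4 := s_E hn hp hr hzk l hij m
  have h5 := h2.mul_left h4
  exact h5.symm

include hn hp hr hzk in
lemma E_comm_all {i j p q : ι} (hij : i ≠ j) (hpq : p ≠ q) (m m' : ℕ) :
    Commute (EE n (g i) (g j) m) (EE n (g p) (g q) m') := by
  by_cases h1 : i = p
  · subst h1; exact E_comm1 hn hp hr hzk hij hpq m m'
  by_cases h2 : i = q
  · subst h2
    rw [E_symm hn hp hr hpq]
    exact E_comm1 hn hp hr hzk hij hpq.symm _ _
  by_cases h3 : j = p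
  · subst h3
    rw [E_symm hn hp hr hij]
    exact E_comm1 hn hp hr hzk hij.symm hpq _ _
  by_cases h4 : j = q
  · subst h4
    rw [E_symm hn hp hr hij, E_symm hn hp hr hpq]
    exact E_comm1 hn hp hr hzk hij.symm hpq.symm _ _
  · exact E_comm_disj hn hp hr hzk hij h1 h3 h2 h4 hpq m m'

include hn hp hr hzk in
lemma gens_comm : ∀ x ∈ gens g n, ∀ y ∈ gens g n, x * y = y * x := by
  rintro x (⟨i, rfl⟩ | ⟨i, j, l, hij, rfl⟩) y (⟨i', rfl⟩ | ⟨i', j', l', hij', rfl⟩)
  · exact (s_comm hp hr i i').eq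
  · exact (s_E hn hp hr hzk i hij' l').eq
  · exact (s_E hn hp hr hzk i' hij l).symm.eq
  · exact (E_comm_all hn hp hr hzk hij hij' l l').eq

include hn hp hr hzk in
lemma gens_sq : ∀ x ∈ gens g n, x * x = 1 := by
  rintro x (⟨i, rfl⟩ | ⟨i, j, l, hij, rfl⟩)
  · rw [← pow_add, ← two_mul, hp]
  · rw [EE_xx (hp i) (hp j) (hr i j hij)]
    have c := xx_comm (hr i j hij) (n + l) l
    rw [← sq, c.mul_pow, hr i j hij, hr i j hij, one_mul]

include hn hp hr hzk in
lemma gens_conj (i : ι) : ∀ x ∈ gens g n, g i * x * (g i)⁻¹ ∈ MM g n := by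
  have m1 : ∀ i, g i ^ n ∈ MM g n := fun i => Subgroup.subset_closure (Or.inl ⟨i, rfl⟩)
  have m2 : ∀ i j, i ≠ j → ∀ l, EE n (g i) (g j) l ∈ MM g n := fun i j h l =>
    Subgroup.subset_closure (Or.inr ⟨i, j, l, h, rfl⟩)
  rintro x (⟨j, rfl⟩ | ⟨p, q, l, hpq, rfl⟩)
  · by_cases h : i = j
    · subst h
      have : g i * g i ^ n * (g i)⁻¹ = g i ^ n := by
        rw [← pow_succ', pow_succ]; group
      rw [this]; exact m1 i
    · have : g i * g j ^ n * (g i)⁻¹ = EE n (g i) (g j) 1 * (g i ^ n)⁻¹ := by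
        unfold EE; rw [pow_one]; group
      rw [this]
      exact (MM g n).mul_mem (m2 i j h 1) ((MM g n).inv_mem (m1 i))
  · by_cases h1 : i = p
    · subst h1
      rw [conj_E_first]; exact m2 _ _ hpq _
    by_cases h2 : i = q
    · subst h2
      rw [E_symm hn hp hr hpq, conj_E_first]; exact m2 _ _ hpq.symm _
    · exact conj_E hn hp hr hzk h1 h2 hpq _ (m2 _ _ h1) (m2 _ _ hpq) (m2 _ _ h2) l

include hn hp hr hzk in
lemma MM_normal (htop : Subgroup.closure (Set.range g) = ⊤) : (MM g n).Normal := by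
  have h1 : ∀ i, ∀ u ∈ MM g n, g i * u * (g i)⁻¹ ∈ MM g n ∧ (g i)⁻¹ * u * ((g i)⁻¹)⁻¹ ∈ MM g n := by
    intro i u hu
    have hc := conj_closure (gens g n) (g i) (gens_conj hn hp hr hzk i)
    constructor
    · have := hc 1 u hu
      rwa [pow_one] at this
    · have := hc ((2 * n - 1) * 1) _ hu
      rwa [pow_back hn (hp i), pow_one] at this
  constructor
  intro u hu y
  have hy : y ∈ Subgroup.closure (Set.range g) := by rw [htop]; trivial
  have key : ∀ u ∈ MM g n, y * u * y⁻¹ ∈ MM g n ∧ y⁻¹ * u * (y⁻¹)⁻¹ ∈ MM g n := by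
    refine Subgroup.closure_induction
      (p := fun y _ => ∀ u ∈ MM g n, y * u * y⁻¹ ∈ MM g n ∧ y⁻¹ * u * (y⁻¹)⁻¹ ∈ MM g n) ?_ ?_ ?_ ?_ hy
    · rintro _ ⟨i, rfl⟩
      exact h1 i
    · intro u hu; simpa using hu
    · intro a b _ _ ia ib u hu
      constructor
      · have := (ia _ (ib u hu).1).1
        have e : a * (b * u * b⁻¹) * a⁻¹ = a * b * u * (a * b)⁻¹ := by group
        rwa [e] at this
      · have := (ib _ (ia u hu).2).2
        have e : b⁻¹ * (a⁻¹ * u * (a⁻¹)⁻¹) * (b⁻¹)⁻¹ = (a * b)⁻¹ * u * ((a * b)⁻¹)⁻¹ := by group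
        rwa [e] at this
    · intro a _ ia u hu
      refine ⟨(ia u hu).2, ?_⟩
      have := (ia u hu).1
      rwa [inv_inv]
  exact (key u hu).1

include hn hp hr hzk in
lemma MM_finite [Finite ι] : Finite (MM g n) := by
  -- the generating set is finite
  have hE : ∀ i j l, EE n (g i) (g j) l = EE n (g i) (g j) (l % (2 * n)) := by
    intro i j l
    unfold EE
    have : g i ^ l = g i ^ (l % (2 * n)) := by
      conv_lhs => rw [← Nat.div_add_mod l (2 * n), pow_add, pow_mul, hp, one_pow, one_mul]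
    rw [this]
  have hfin : (gens g n).Finite := by
    have hsub : gens g n ⊆ (Set.range fun i => g i ^ n) ∪
        (Set.range fun z : ι × ι × Fin (2 * n) => EE n (g z.1) (g z.2.1) z.2.2) := by
      rintro x (⟨i, rfl⟩ | ⟨i, j, l, hij, rfl⟩)
      · left; exact ⟨i, rfl⟩
      · right
        exact ⟨(i, j, ⟨l % (2 * n), Nat.mod_lt _ (by omega)⟩), (hE i j l).symm⟩
    exact ((Set.finite_range _).union (Set.finite_range _)).subset hsub
  have hcom : IsMulCommutative (MM g n) :=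
    Subgroup.isMulCommutative_closure (gens_comm hn hp hr hzk)
  let inst : CommGroup (MM g n) :=
    { (inferInstance : Group (MM g n)) with mul_comm := fun a b => hcom.is_comm.comm a b }
  have hfg : Group.FG (MM g n) := by
    rw [Group.fg_iff_subgroup_fg]
    exact ⟨hfin.toFinset, by rw [Set.Finite.coe_toFinset]; rfl⟩
  have htor : ∀ u ∈ MM g n, u * u = 1 := by
    intro u hu
    refine Subgroup.closure_induction (p := fun v _ => v * v = 1) (gens_sq hn hp hr hzk) ?_ ?_ ?_ hu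
    · simp
    · intro u v hu hv iu iv
      have := congrArg Subtype.val (hcom.is_comm.comm (⟨u, hu⟩ : MM g n) ⟨v, hv⟩)
      simp only [Subgroup.coe_mul] at this
      calc u * v * (u * v) = u * (v * u) * v := by group
        _ = u * (u * v) * v := by rw [this]
        _ = (u * u) * (v * v) := by group
        _ = 1 := by rw [iu, iv, one_mul]
    · intro u _ iu
      rw [← mul_inv_rev, iu, inv_one]
  apply CommGroup.finite_of_fg_isMulTorsion
  intro u
  rw [isOfFinOrder_iff_pow_eq_one]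
  refine ⟨2, by norm_num, ?_⟩
  apply Subtype.ext
  rw [sq]
  exact htor u.1 u.2

end family

end Pool.Agent.Helper622.Sidki
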