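import Mathlib
import Pool.Agent.Helper622.Sidki.Ker

set_option autoImplicit false

namespace Pool.Agent.Helper622.Sidki

/-- the relators of `Y(m,n)` -/
def Yrels (m n : ℕ) : Set (FreeGroup (Fin m)) :=
  {r : FreeGroup (Fin m) |
    (∃ k : Fin m, r = FreeGroup.of k ^ n) ∨
    ∃ k l : Fin m, ∃ i : ℕ, k < l ∧ 1 ≤ i ∧ 2 * i ≤ n ∧
      r = (FreeGroup.of k ^ i * FreeGroup.of l ^ i) ^ 2}

abbrev YY (m n : ℕ) := PresentedGroup (Yrels m n)

/-- the generators of `Y(m,n)` -/
def yg (m n : ℕ) (k : Fin m) : YY m n := PresentedGroup.of k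

lemma yg_pow (m n : ℕ) (k : Fin m) : yg m n k ^ n = 1 := by
  have : (FreeGroup.of k ^ n) ∈ Yrels m n := Or.inl ⟨k, rfl⟩
  have := PresentedGroup.one_of_mem this
  rwa [map_pow] at this

lemma yg_rel0 (m n : ℕ) {k l : Fin m} (h : k < l) {i : ℕ} (hi : 1 ≤ i) (hin : 2 * i ≤ n) :
    (yg m n k ^ i * yg m n l ^ i) ^ 2 = 1 := by
  have : ((FreeGroup.of k ^ i * FreeGroup.of l ^ i) ^ 2) ∈ Yrels m n :=
    Or.inr ⟨k, l, i, h, hi, hin, rfl⟩
  have := PresentedGroup.one_of_mem this
  rwa [map_pow, map_mul, map_pow, map_pow] at this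

lemma yg_rel1 (m n : ℕ) {k l : Fin m} (h : k < l) {i : ℕ} (hin : 2 * i ≤ n) :
    (yg m n k ^ i * yg m n l ^ i) ^ 2 = 1 := by
  rcases Nat.eq_zero_or_pos i with rfl | hi
  · simp
  · exact yg_rel0 m n h hi hin

lemma yg_rel (m n : ℕ) (hn : 1 ≤ n) (k l : Fin m) (h : k ≠ l) (i : ℕ) :
    (yg m n k ^ i * yg m n l ^ i) ^ 2 = 1 := by
  have key : ∀ k l : Fin m, k < l → (yg m n k ^ i * yg m n l ^ i) ^ 2 = 1 := by
    intro k l h
    have hk := yg_pow m n k
    have hl := yg_pow m n l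
    have e : ∀ a : YY m n, a ^ n = 1 → a ^ i = a ^ (i % n) := by
      intro a ha
      conv_lhs => rw [← Nat.div_add_mod i n, pow_add, pow_mul, ha, one_pow, one_mul]
    rw [e _ hk, e _ hl]
    set r := i % n with hr
    have hrn : r < n := Nat.mod_lt _ (by omega)
    by_cases h2 : 2 * r ≤ n
    · exact yg_rel1 m n h h2
    · have h3 := yg_rel1 m n h (i := n - r) (by omega)
      have e2 : ∀ a : YY m n, a ^ n = 1 → a ^ (n - r) = (a ^ r)⁻¹ := by
        intro a ha
        rw [eq_inv_iff_mul_eq_one, ← pow_add]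
        have : n - r + r = n := by omega
        rw [this, ha]
      rw [e2 _ hk, e2 _ hl, ← mul_inv_rev, inv_pow, inv_eq_one] at h3
      exact swap_rel h3
  rcases lt_or_gt_of_ne h with h | h
  · exact key k l h
  · exact swap_rel (key l k h)

lemma yg_top (m n : ℕ) : Subgroup.closure (Set.range (yg m n)) = ⊤ :=
  PresentedGroup.closure_range_of _

/-- The kernel of `Y(m,2n) → Y(m,n)` is finite as soon as the two families of relations hold. -/
theorem step (m n : ℕ) (hn : 1 ≤ n) (hzk : ZK n) (hfin : Finite (YY m n)) :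
    Finite (YY m (2 * n)) := by
  have hp := yg_pow m (2 * n)
  have hr := yg_rel m (2 * n) (by omega)
  have hnorm := MM_normal (g := yg m (2 * n)) hn hp hr hzk (yg_top m (2 * n))
  have hMfin := MM_finite (g := yg m (2 * n)) hn hp hr hzk
  -- surjection `Y(m,n) → Y(m,2n)/M`
  let f : YY m n →* YY m (2 * n) ⧸ MM (yg m (2 * n)) n :=
    PresentedGroup.toGroup (f := fun k => QuotientGroup.mk' _ (yg m (2 * n) k)) (by
      rintro r (⟨k, rfl⟩ | ⟨k, l, i, hkl, _, _, rfl⟩)
      · rw [map_pow, FreeGroup.lift_apply_of, ← map_pow]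
        rw [QuotientGroup.mk'_apply, QuotientGroup.eq_one_iff]
        exact Subgroup.subset_closure (Or.inl ⟨k, rfl⟩)
      · rw [map_pow, map_mul, map_pow, map_pow, FreeGroup.lift_apply_of, FreeGroup.lift_apply_of,
          ← map_pow, ← map_pow, ← map_mul, ← map_pow, hr k l hkl.ne, map_one])
  have hf : ∀ k, f (yg m n k) = QuotientGroup.mk' _ (yg m (2 * n) k) := fun k =>
    PresentedGroup.toGroup.of _
  have hsurj : Function.Surjective f := by
    rw [← MonoidHom.range_eq_top, eq_top_iff]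
    have h1 : (⊤ : Subgroup (YY m (2 * n) ⧸ MM (yg m (2 * n)) n))
        = (⊤ : Subgroup (YY m (2 * n))).map (QuotientGroup.mk' _) := by
      rw [Subgroup.map_top_of_surjective _ (QuotientGroup.mk'_surjective _)]
    rw [h1, ← yg_top m (2 * n), MonoidHom.map_closure, Subgroup.closure_le]
    rintro _ ⟨_, ⟨k, rfl⟩, rfl⟩
    exact ⟨yg m n k, hf k⟩
  have hq : Finite (YY m (2 * n) ⧸ MM (yg m (2 * n)) n) := Finite.of_surjective f hsurj
  exact Finite.of_equiv _ (Subgroup.groupEquivQuotientProdSubgroup (s := MM (yg m (2 * n)) n)).symm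

theorem base (m : ℕ) : Finite (YY m 1) := by
  have h : ∀ x : YY m 1, x = 1 := by
    intro x
    have hx : x ∈ Subgroup.closure (Set.range (yg m 1)) := by rw [yg_top]; trivial
    refine Subgroup.closure_induction (p := fun v _ => v = 1) ?_ ?_ ?_ ?_ hx
    · rintro _ ⟨k, rfl⟩
      have := yg_pow m 1 k
      rwa [pow_one] at this
    · rfl
    · rintro a b _ _ rfl rfl; simp
    · rintro a _ rfl; simp
  exact @Finite.of_subsingleton _ ⟨fun a b => by rw [h a, h b]⟩

theorem main (m k : ℕ) : Finite (YY m (2 ^ k)) := by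
  induction k with
  | zero => exact base m
  | succ k ih =>
    have := step m (2 ^ k) Nat.one_le_two_pow (ZK_two_pow k) ih
    have e : 2 * 2 ^ k = 2 ^ (k + 1) := by rw [pow_succ]; ring
    rwa [e] at this

end Pool.Agent.Helper622.Sidki
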